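import Pool.Agent.H7.L.N496_CV_Stm3
import Pool.Agent.H7.L.N496_CV_P_DAC
import Pool.Agent.H7.L.N496_CV_ConvB

/-!
# Torsion free subgroups of right-angled Coxeter groups: cells

The double cosets `K w W_T` for a torsion free subgroup `K` and the finite special subgroup `W_T` of a clique `T`, and
the integral chains of the cells `w W_T`.
-/

set_option autoImplicit false
set_option linter.unusedSectionVars false

noncomputable section

namespace Pool.Agent.H15.CC

open Pool.Agent.W907.SG Pool.Agent.W461.SGN Pool.Agent.N496.CV Pool.Agent.N496.LT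

/-- Representatives of the double cosets of `K` and `F`, if `K` acts freely on the cosets of `F`. -/
theorem dec {Γ : Type} [Group Γ] (K F : Subgroup Γ) (hfree : ∀ h ∈ K, ∀ w, w⁻¹ * h * w ∈ F → h = 1) :
    ∃ (k : Γ → K) (ρ π : Γ → Γ), (∀ w, (k w : Γ) * ρ w * π w = w) ∧ (∀ w, π w ∈ F) ∧
      (∀ (h : K) (w p : Γ), p ∈ F → k (h * w * p) = h * k w ∧ ρ (h * w * p) = ρ w ∧ π (h * w * p) = π w * p) ∧
      (∀ w, k (ρ w) = 1 ∧ ρ (ρ w) = ρ w ∧ π (ρ w) = 1) := by
  classical
  obtain ⟨S, hS⟩ : ∃ S : Setoid Γ, ∀ x y, S x y ↔ ∃ h : K, ∃ p ∈ F, y = h * x * p := by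
    refine ⟨⟨fun x y => ∃ h : K, ∃ p ∈ F, y = h * x * p, ⟨fun x => ⟨1, 1, F.one_mem, by simp⟩, ?_, ?_⟩⟩,
      fun x y => Iff.rfl⟩
    · rintro x y ⟨h, p, hp, rfl⟩
      refine ⟨h⁻¹, p⁻¹, F.inv_mem hp, ?_⟩
      push_cast
      group
    · rintro x y z ⟨h, p, hp, rfl⟩ ⟨h', p', hp', rfl⟩
      refine ⟨h' * h, p * p', F.mul_mem hp hp', ?_⟩
      push_cast
      group
  obtain ⟨ρ, hρ⟩ : ∃ ρ : Γ → Γ, ρ = fun w => (Quotient.mk S w).out := ⟨_, rfl⟩
  have h1 : ∀ w, S (ρ w) w := fun w => by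
    rw [hρ]
    exact Quotient.exact (Quotient.out_eq (Quotient.mk S w))
  have h2 : ∀ w, ∃ h : K, ∃ p ∈ F, w = h * ρ w * p := fun w => (hS _ _).1 (h1 w)
  choose k π hπ hw using h2
  have h3 : ∀ x y, S x y → ρ x = ρ y := by
    intro x y h
    rw [hρ]
    exact congrArg Quotient.out (Quotient.sound h)
  have huniq : ∀ (h h' : K) (w p p' : Γ), p ∈ F → p' ∈ F → (h : Γ) * w * p = h' * w * p' → h = h' ∧ p = p' := by
    intro h h' w p p' hp hp' he
    have h4 : w⁻¹ * ((h'⁻¹ * h : K) : Γ) * w = p' * p⁻¹ := by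
      push_cast
      have : (h : Γ) * w = h' * w * p' * p⁻¹ := by rw [← he]; group
      rw [mul_assoc, mul_assoc, this]
      group
    have h5 : ((h'⁻¹ * h : K) : Γ) = 1 := hfree _ (h'⁻¹ * h : K).2 w (by
      rw [h4]
      exact F.mul_mem hp' (F.inv_mem hp))
    have h6 : h = h' := by
      have h7 : (h'⁻¹ * h : K) = 1 := Subtype.ext h5
      rw [inv_mul_eq_one] at h7
      exact h7.symm
    subst h6
    exact ⟨rfl, mul_left_cancel he⟩
  refine ⟨k, ρ, π, fun w => (hw w).symm, hπ, fun h w p hp => ?_, fun w => ?_⟩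
  · have h4 : ρ (h * w * p) = ρ w := (h3 _ _ ((hS _ _).2 ⟨h, p, hp, rfl⟩)).symm
    have h5 := hw (h * w * p)
    rw [h4] at h5
    have h6 := hw w
    have h7 : ((h * k w : K) : Γ) * ρ w * (π w * p) = (k (h * w * p) : Γ) * ρ w * π (h * w * p) := by
      rw [← h5]
      push_cast
      conv_rhs => rw [h6]
      group
    obtain ⟨h8, h9⟩ := huniq _ _ _ _ _ (F.mul_mem (hπ w) hp) (hπ _) h7
    exact ⟨h8.symm, h4, h9.symm⟩
  · have h4 : ρ (ρ w) = ρ w := h3 _ _ (h1 w)
    have h5 := hw (ρ w)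
    rw [h4] at h5
    have h6 : ((1 : K) : Γ) * ρ w * 1 = (k (ρ w) : Γ) * ρ w * π (ρ w) := by
      rw [← h5]
      simp
    obtain ⟨h7, h8⟩ := huniq _ _ _ _ _ F.one_mem (hπ _) h6
    exact ⟨h7.symm, h4, h8.symm⟩

section

variable {V : Type} [Fintype V] [LinearOrder V] (G : SimpleGraph V)

/-- the special subgroup of a set of vertices -/
def FT (T : Finset V) : Subgroup (W G) := Subgroup.closure ((cox G).simple '' (T : Set V))

variable {G}

theorem simple_mem_FT {T : Finset V} {t : V} (ht : t ∈ T) : (cox G).simple t ∈ FT G T :=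
  Subgroup.subset_closure ⟨t, ht, rfl⟩

theorem mem_FT {T : Finset V} (hT : G.IsClique (T : Set V)) {p : W G} (hp : p ∈ FT G T) :
    ∃ S : Finset V, S ⊆ T ∧ p = rep G S := by
  unfold FT at hp
  have key : ∀ (t : V), t ∈ T → ∀ y : W G, (∃ S : Finset V, S ⊆ T ∧ y = rep G S) →
      ∃ S : Finset V, S ⊆ T ∧ (cox G).simple t * y = rep G S := by
    rintro t ht y ⟨S, hS, rfl⟩
    by_cases h : t ∈ S
    · refine ⟨S.erase t, (Finset.erase_subset _ _).trans hS, ?_⟩
      have h1 := CB.rep_insert hT ((Finset.erase_subset t S).trans hS) ht (Finset.notMem_erase t S)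
      rw [Finset.insert_erase h] at h1
      rw [h1, ← mul_assoc, CB.simple_sq, one_mul]
    · exact ⟨insert t S, Finset.insert_subset ht hS, (CB.rep_insert hT hS ht h).symm⟩
  induction hp using Subgroup.closure_induction_left with
  | one => exact ⟨∅, Finset.empty_subset _, CB.rep_empty.symm⟩
  | mul_left x hx y _ hy =>
    obtain ⟨t, ht, rfl⟩ := hx
    exact key t ht y hy
  | inv_mul_cancel x hx y _ hy =>
    obtain ⟨t, ht, rfl⟩ := hx
    rw [CB.simple_inv]
    exact key t ht y hy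

theorem FT_sq {T : Finset V} (hT : G.IsClique (T : Set V)) {p : W G} (hp : p ∈ FT G T) : p ^ 2 = 1 := by
  obtain ⟨S, hS, h1⟩ := mem_FT hT (Subgroup.pow_mem _ hp 2)
  have h2 : th G (p ^ 2) = 1 := by
    rw [map_pow]
    funext v
    rw [Pi.pow_apply, Pi.one_apply]
    rcases Int.units_eq_one_or (th G p v) with h | h <;> rw [h] <;> rfl
  have h3 : S = ∅ := by
    rw [Finset.eq_empty_iff_forall_notMem]
    intro v hv
    have h4 := CB.par_rep (1 : (th G).ker) S
    rw [OneMemClass.coe_one, one_mul, ← h1] at h4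
    have h5 : v ∈ par G (p ^ 2) := by rw [h4]; exact hv
    rw [mem_par, h2, Pi.one_apply] at h5
    exact absurd h5 (by decide)
  rw [h1, h3, CB.rep_empty]

theorem FT_finite {T : Finset V} (hT : G.IsClique (T : Set V)) : (FT G T : Set (W G)).Finite := by
  classical
  refine (T.powerset.image (rep G)).finite_toSet.subset fun p hp => ?_
  obtain ⟨S, hS, rfl⟩ := mem_FT hT hp
  rw [Finset.mem_coe, Finset.mem_image]
  exact ⟨S, Finset.mem_powerset.2 hS, rfl⟩

theorem free_FT {K : Subgroup (W G)} (hK : ∀ k ∈ K, ∀ n : ℕ, 0 < n → k ^ n = 1 → k = 1) {T : Finset V}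
    (hT : G.IsClique (T : Set V)) : ∀ h ∈ K, ∀ w, w⁻¹ * h * w ∈ FT G T → h = 1 := by
  intro h hh w hw
  refine hK h hh 2 (by norm_num) ?_
  have h1 := FT_sq hT hw
  have h2 : (w⁻¹ * h * w) ^ 2 = w⁻¹ * h ^ 2 * w := by
    rw [pow_two, pow_two]
    group
  rw [h2] at h1
  have h3 : h ^ 2 = w * (w⁻¹ * h ^ 2 * w) * w⁻¹ := by group
  rw [h3, h1]
  group

variable (G)

/-- the sign character of `W G` -/
def eps : W G →* ℤˣ where
  toFun w := ∏ v, th G w v
  map_one' := by
    rw [map_one]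
    exact Finset.prod_const_one
  map_mul' x y := by
    rw [map_mul, ← Finset.prod_mul_distrib]
    rfl

theorem eps_simple (t : V) : eps G ((cox G).simple t) = -1 := by
  show ∏ v, th G ((cox G).simple t) v = -1
  rw [th_simple]
  refine (Finset.prod_eq_single t (fun v _ hv => ?_) fun h => absurd (Finset.mem_univ t) h).trans ?_
  · exact if_neg hv
  · exact if_pos rfl

variable {G}

/-- functions which change the sign under the generators in `T` -/
theorem anti_FT {R : Type} [Ring R] {T : Finset V} {f : W G → R}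
    (hf : ∀ t ∈ T, ∀ w, f (w * (cox G).simple t) = - f w) {p : W G} (hp : p ∈ FT G T) (w : W G) :
    f (w * p) = ((eps G p : ℤˣ) : ℤ) • f w := by
  unfold FT at hp
  induction hp using Subgroup.closure_induction_right with
  | one => simp
  | mul_right x hx y hy h =>
    obtain ⟨t, ht, rfl⟩ := hy
    rw [← mul_assoc, hf t ht, h, map_mul, eps_simple]
    simp
  | mul_inv_cancel x hx y hy h =>
    obtain ⟨t, ht, rfl⟩ := hy
    rw [CB.simple_inv, ← mul_assoc, hf t ht, h, map_mul, eps_simple]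
    simp

open Classical in
/-- the chain of the cell `w W_T` -/
def cel (T : Finset V) (w : W G) : Finset V → W G → ℤ := fun T' y =>
  if T' = T ∧ w⁻¹ * y ∈ FT G T then ((eps G (w⁻¹ * y) : ℤˣ) : ℤ) else 0

theorem cel_ch {T : Finset V} (hT : G.IsClique (T : Set V)) (w : W G) : DacAux.Ch G T.card (cel T w) := by
  classical
  refine ⟨fun T' hT' => ?_, fun T' => ?_, fun T' t ht y => ?_⟩
  · funext y
    unfold cel
    rw [if_neg]
    · rfl
    · rintro ⟨rfl, -⟩
      exact hT' ⟨hT, Set.subset_univ _, rfl⟩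
  · refine ((FT_finite hT).image fun p => w * p).subset fun y hy => ?_
    by_contra hc
    apply hy
    unfold cel
    rw [if_neg]
    rintro ⟨-, h⟩
    exact hc ⟨_, h, by group⟩
  · unfold cel
    by_cases h : T' = T ∧ w⁻¹ * y ∈ FT G T
    · have h1 : T' = T ∧ w⁻¹ * (y * (cox G).simple t) ∈ FT G T := by
        refine ⟨h.1, ?_⟩
        rw [← mul_assoc]
        exact (FT G T).mul_mem h.2 (simple_mem_FT (h.1 ▸ ht))
      rw [if_pos h, if_pos h1, ← mul_assoc, map_mul, eps_simple]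
      simp
    · have h1 : ¬ (T' = T ∧ w⁻¹ * (y * (cox G).simple t) ∈ FT G T) := by
        rintro ⟨h1, h2⟩
        refine h ⟨h1, ?_⟩
        have h3 := (FT G T).mul_mem h2 (simple_mem_FT (h1 ▸ ht))
        have h4 : w⁻¹ * (y * (cox G).simple t) * (cox G).simple t = w⁻¹ * y := by
          rw [mul_assoc, mul_assoc, CB.simple_sq, mul_one]
        rwa [h4] at h3
      rw [if_neg h, if_neg h1, neg_zero]

end

end Pool.Agent.H15.CC
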