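import Pool.Agent.H15.CCF.F1
import Pool.Agent.H7.L.Helper970_V7_P_proj_res

/-!
# The integral chains of the Davis complex as modules over a torsion free subgroup
-/

set_option autoImplicit false
set_option linter.unusedSectionVars false

noncomputable section

namespace Pool.Agent.H15.CC

open Pool.Agent.W907.SG Pool.Agent.W461.SGN Pool.Agent.N496.CV Pool.Agent.N496.LT

/-- additive maps which commute with the group are linear over the group ring -/
def mkL {K : Type} [Group K] {M N : Type} [AddCommGroup M] [AddCommGroup N] [Module (MonoidAlgebra ℤ K) M]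
    [Module (MonoidAlgebra ℤ K) N] (f : M →+ N)
    (hf : ∀ (g : K) m, f (MonoidAlgebra.single g (1 : ℤ) • m) = MonoidAlgebra.single g (1 : ℤ) • f m) :
    M →ₗ[MonoidAlgebra ℤ K] N where
  toFun := f
  map_add' := f.map_add
  map_smul' c m := by
    show f (c • m) = c • f m
    induction c using MonoidAlgebra.induction_linear with
    | zero => rw [zero_smul, zero_smul, map_zero]
    | add x y hx hy => rw [add_smul, map_add, hx, hy, add_smul]
    | single g n =>
      have e : (MonoidAlgebra.single g n : MonoidAlgebra ℤ K) = n • MonoidAlgebra.single g (1 : ℤ) := by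
        rw [MonoidAlgebra.smul_single, smul_eq_mul, mul_one]
      rw [e, smul_assoc, map_zsmul, hf, smul_assoc]

section

variable {V : Type} [Fintype V] [LinearOrder V] (G : SimpleGraph V)

/-- the group of integral `i`-chains with finite support -/
def CG (i : ℕ) : AddSubgroup (Finset V → W G → ℤ) where
  carrier := {c | DacAux.Ch G i c}
  add_mem' := DacAux.Ch_add
  zero_mem' := ⟨fun _ _ => rfl, fun T => by
    show (Function.support (0 : W G → ℤ)).Finite
    rw [Function.support_zero]
    exact Set.finite_empty, fun T t ht w => by simp⟩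
  neg_mem' := DacAux.Ch_neg

variable {G}

/-- left translation -/
def tr (i : ℕ) (h : W G) : CG G i →+ CG G i where
  toFun c := ⟨fun T w => c.1 T (h⁻¹ * w), by
    refine ⟨fun T hT => ?_, fun T => ?_, fun T t ht w => ?_⟩
    · funext w
      rw [c.2.supp T hT]
      rfl
    · refine ((c.2.mem T).image fun x => h * x).subset fun w hw => ?_
      exact ⟨h⁻¹ * w, hw, by group⟩
    · rw [← mul_assoc]
      exact c.2.anti T t ht _⟩
  map_zero' := rfl
  map_add' c d := rfl

theorem tr_apply (i : ℕ) (h : W G) (c : CG G i) (T : Finset V) (w : W G) :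
    (tr i h c).1 T w = c.1 T (h⁻¹ * w) := rfl

/-- the chains as a module over `K` -/
@[nolint unusedArguments]
def CM (_K : Subgroup (W G)) (i : ℕ) : Type := CG G i

instance (K : Subgroup (W G)) (i : ℕ) : AddCommGroup (CM K i) := inferInstanceAs (AddCommGroup (CG G i))

/-- the action of `K` -/
def actK (K : Subgroup (W G)) (i : ℕ) : K →* Module.End ℤ (CM K i) where
  toFun h := (show CM K i →+ CM K i from tr i (h : W G)).toIntLinearMap
  map_one' := by
    apply LinearMap.ext
    intro c
    apply Subtype.ext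
    funext T w
    show c.1 T (((1 : K) : W G)⁻¹ * w) = c.1 T w
    rw [OneMemClass.coe_one, inv_one, one_mul]
  map_mul' x y := by
    apply LinearMap.ext
    intro c
    apply Subtype.ext
    funext T w
    show c.1 T (((x * y : K) : W G)⁻¹ * w) = c.1 T ((y : W G)⁻¹ * ((x : W G)⁻¹ * w))
    rw [Subgroup.coe_mul, mul_inv_rev, mul_assoc]

/-- the action of the group ring -/
def actR (K : Subgroup (W G)) (i : ℕ) : MonoidAlgebra ℤ K →+* Module.End ℤ (CM K i) :=
  (MonoidAlgebra.lift ℤ (Module.End ℤ (CM K i)) K (actK K i)).toRingHom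

instance (K : Subgroup (W G)) (i : ℕ) : Module (MonoidAlgebra ℤ K) (CM K i) :=
  Module.compHom (CM K i) (actR K i)

theorem single_smul (K : Subgroup (W G)) (i : ℕ) (h : K) (c : CM K i) :
    MonoidAlgebra.single h (1 : ℤ) • c = (show CM K i from tr i (h : W G) c) := by
  show actR K i (MonoidAlgebra.single h (1 : ℤ)) c = _
  have h1 : actR K i (MonoidAlgebra.single h (1 : ℤ)) = actK K i h := by
    show MonoidAlgebra.lift ℤ (Module.End ℤ (CM K i)) K (actK K i) (MonoidAlgebra.single h (1 : ℤ)) = _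
    rw [MonoidAlgebra.lift_single, one_smul]
  rw [h1]
  rfl

variable (G) in
/-- the cliques with `i` elements -/
abbrev Tc (i : ℕ) : Type := {T : Finset V // G.IsClique (T : Set V) ∧ T.card = i}

/-- the cells -/
def celC (i : ℕ) (x : Tc G i × W G) : CG G i := ⟨cel x.1.1 x.2, by
  have h := cel_ch x.1.2.1 x.2
  rw [x.1.2.2] at h
  exact h⟩

theorem celC_apply (i : ℕ) (x : Tc G i × W G) (T : Finset V) (w : W G) : (celC i x).1 T w = cel x.1.1 x.2 T w := rfl

theorem tr_celC (i : ℕ) (h : W G) (x : Tc G i × W G) : tr i h (celC i x) = celC i (x.1, h * x.2) := by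
  apply Subtype.ext
  funext T w
  rw [tr_apply, celC_apply, celC_apply]
  show cel x.1.1 x.2 T (h⁻¹ * w) = cel x.1.1 (h * x.2) T w
  unfold cel
  rw [mul_inv_rev, mul_assoc]

/-- the data of representatives of double cosets, for all cliques -/
structure Dt (K : Subgroup (W G)) (i : ℕ) where
  k : Tc G i → W G → K
  ρ : Tc G i → W G → W G
  π : Tc G i → W G → W G
  eq : ∀ T w, (k T w : W G) * ρ T w * π T w = w
  mem : ∀ T w, π T w ∈ FT G T.1
  tr : ∀ (T : Tc G i) (h : K) (w p : W G), p ∈ FT G T.1 →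
    k T (h * w * p) = h * k T w ∧ ρ T (h * w * p) = ρ T w ∧ π T (h * w * p) = π T w * p
  rep : ∀ T w, k T (ρ T w) = 1 ∧ ρ T (ρ T w) = ρ T w ∧ π T (ρ T w) = 1

theorem exists_dt {K : Subgroup (W G)} (hK : ∀ k ∈ K, ∀ n : ℕ, 0 < n → k ^ n = 1 → k = 1) (i : ℕ) :
    Nonempty (Dt K i) := by
  have h := fun T : Tc G i => dec K (FT G T.1) (free_FT hK T.2.1)
  choose k ρ π h1 h2 h3 h4 using h
  exact ⟨⟨k, ρ, π, h1, h2, h3, h4⟩⟩

variable {K : Subgroup (W G)} {i : ℕ} (D : Dt K i)

theorem Dt.left (T : Tc G i) (h : K) (w : W G) :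
    D.k T (h * w) = h * D.k T w ∧ D.ρ T (h * w) = D.ρ T w ∧ D.π T (h * w) = D.π T w := by
  have := D.tr T h w 1 (Subgroup.one_mem _)
  rwa [mul_one, mul_one] at this

theorem Dt.right (T : Tc G i) (w p : W G) (hp : p ∈ FT G T.1) :
    D.k T (w * p) = D.k T w ∧ D.ρ T (w * p) = D.ρ T w ∧ D.π T (w * p) = D.π T w * p := by
  have := D.tr T 1 w p hp
  rwa [OneMemClass.coe_one, one_mul, one_mul] at this

open Classical in
/-- the coordinates of a chain -/
def cf : CG G i →+ (Tc G i × W G →₀ ℤ) where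
  toFun c := Finsupp.ofSupportFinite (fun x => if D.π x.1 x.2 = 1 then c.1 x.1.1 x.2 else 0) (by
    refine (Set.finite_univ.prod (Set.finite_iUnion fun T : Tc G i => c.2.mem T.1)).subset fun x hx => ?_
    refine ⟨Set.mem_univ _, Set.mem_iUnion.2 ⟨x.1, fun h => hx ?_⟩⟩
    show (if D.π x.1 x.2 = 1 then c.1 x.1.1 x.2 else 0) = 0
    rw [h, ite_self])
  map_zero' := by
    ext x
    show (if D.π x.1 x.2 = 1 then (0 : ℤ) else 0) = 0
    rw [ite_self]
  map_add' c d := by
    ext x
    show (if D.π x.1 x.2 = 1 then c.1 x.1.1 x.2 + d.1 x.1.1 x.2 else 0) =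
      (if D.π x.1 x.2 = 1 then c.1 x.1.1 x.2 else 0) + (if D.π x.1 x.2 = 1 then d.1 x.1.1 x.2 else 0)
    split_ifs <;> simp

open Classical in
theorem cf_apply (c : CG G i) (x : Tc G i × W G) : cf D c x = if D.π x.1 x.2 = 1 then c.1 x.1.1 x.2 else 0 := rfl

/-- a chain is the sum of its cells -/
theorem cf_sum (c : CG G i) : (cf D c).sum (fun x n => n • celC i x) = c := by
  classical
  apply Subtype.ext
  funext T y
  unfold Finsupp.sum
  rw [AddSubgroup.val_finsetSum, Finset.sum_apply, Finset.sum_apply]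
  by_cases hT : G.IsClique (T : Set V) ∧ T.card = i
  · obtain ⟨T', hT'⟩ : ∃ T' : Tc G i, T'.1 = T := ⟨⟨T, hT⟩, rfl⟩
    subst hT'
    have hp := D.mem T' y
    obtain ⟨z, hz⟩ : ∃ z, z = y * (D.π T' y)⁻¹ := ⟨_, rfl⟩
    have hy : y = z * D.π T' y := by rw [hz]; group
    have hπz : D.π T' z = 1 := by
      rw [hz, (D.right T' y _ ((FT G T'.1).inv_mem hp)).2.2, mul_inv_cancel]
    have hterm : (cf D c (T', z)) • cel T'.1 z T'.1 y = c.1 T'.1 y := by
      rw [cf_apply]
      dsimp only
      rw [if_pos hπz]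
      unfold cel
      have h1 : z⁻¹ * y = D.π T' y := by rw [hz]; group
      rw [if_pos ⟨rfl, by rw [h1]; exact hp⟩, h1]
      conv_rhs => rw [hy]
      rw [anti_FT (c.2.anti T'.1) hp z, smul_eq_mul, smul_eq_mul, mul_comm]
    rw [← hterm]
    refine (Finset.sum_eq_single (T', z) (fun x hx hne => ?_) fun hn => ?_)
    · show (cf D c x) • cel x.1.1 x.2 T'.1 y = 0
      unfold cel
      rw [if_neg, smul_zero]
      rintro ⟨h1, h2⟩
      have h3 : x.1 = T' := Subtype.ext h1.symm
      have h4 : D.π x.1 x.2 = 1 := by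
        by_contra h5
        rw [Finsupp.mem_support_iff, cf_apply, if_neg h5] at hx
        exact hx rfl
      apply hne
      rw [Prod.ext_iff]
      refine ⟨h3, ?_⟩
      rw [h3] at h2 h4
      have h5 := (D.right T' x.2 _ h2).2.2
      rw [h4, one_mul] at h5
      have h6 : x.2 * (x.2⁻¹ * y) = y := by group
      rw [h6] at h5
      show x.2 = z
      rw [hz, h5]
      group
    · show (cf D c (T', z)) • cel T'.1 z T'.1 y = 0
      rw [Finsupp.notMem_support_iff] at hn
      rw [hn, zero_smul]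
  · have h1 : c.1 T y = 0 := by
      rw [c.2.supp T (fun h => hT ⟨h.1, h.2.2⟩)]
      rfl
    rw [h1]
    refine Finset.sum_eq_zero fun x _ => ?_
    show (cf D c x) • cel x.1.1 x.2 T y = 0
    unfold cel
    rw [if_neg, smul_zero]
    rintro ⟨rfl, -⟩
    exact hT x.1.2

/-- translation in the coordinates -/
theorem cf_tr (h : K) (c : CG G i) :
    cf D (tr i (h : W G) c) = (cf D c).mapDomain (fun x => (x.1, (h : W G) * x.2)) := by
  classical
  have hinj : Function.Injective (fun x : Tc G i × W G => (x.1, (h : W G) * x.2)) := by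
    rintro ⟨a, b⟩ ⟨a', b'⟩ he
    rw [Prod.ext_iff] at he
    exact Prod.ext he.1 (mul_left_cancel he.2)
  ext x
  have hx : x = (fun x : Tc G i × W G => (x.1, (h : W G) * x.2)) (x.1, (h : W G)⁻¹ * x.2) := by
    ext1
    · rfl
    · show x.2 = (h : W G) * ((h : W G)⁻¹ * x.2)
      group
  conv_rhs => rw [hx]
  rw [Finsupp.mapDomain_apply hinj, cf_apply, cf_apply, tr_apply]
  have h1 := (D.left x.1 h⁻¹ x.2).2.2
  rw [Subgroup.coe_inv] at h1
  dsimp only
  rw [h1]

/-- The chains form a projective module. -/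
theorem proj (D : Dt K i) : Module.Projective (MonoidAlgebra ℤ K) (CM K i) := by
  classical
  let F : Tc G i × W G → (CM K i →₀ MonoidAlgebra ℤ K) := fun x =>
    Finsupp.single (show CM K i from celC i (x.1, D.ρ x.1 x.2)) (MonoidAlgebra.single (D.k x.1 x.2) (1 : ℤ))
  let s0 : CG G i →+ (CM K i →₀ MonoidAlgebra ℤ K) :=
    (Finsupp.liftAddHom fun x => (smulAddHom ℤ (CM K i →₀ MonoidAlgebra ℤ K)).flip (F x)).comp (cf D)
  have hs0 : ∀ c, s0 c = (cf D c).sum fun x n => n • F x := fun c => rfl
  let s : CM K i →ₗ[MonoidAlgebra ℤ K] (CM K i →₀ MonoidAlgebra ℤ K) := mkL (show CM K i →+ _ from s0) (by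
    intro g m
    rw [single_smul]
    show s0 (tr i (g : W G) m) = MonoidAlgebra.single g (1 : ℤ) • s0 m
    rw [hs0, hs0, cf_tr, Finsupp.sum_mapDomain_index (by intro x; rw [zero_smul]) (by intro x m n; rw [add_smul])]
    unfold Finsupp.sum
    rw [Finset.smul_sum]
    refine Finset.sum_congr rfl fun x _ => ?_
    show (cf D m x) • F (x.1, (g : W G) * x.2) = MonoidAlgebra.single g (1 : ℤ) • ((cf D m x) • F x)
    rw [smul_comm]
    congr 1
    show (Finsupp.single (show CM K i from celC i (x.1, D.ρ x.1 (g * x.2)))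
        (MonoidAlgebra.single (D.k x.1 (g * x.2)) (1 : ℤ)) : CM K i →₀ MonoidAlgebra ℤ K) =
      MonoidAlgebra.single g (1 : ℤ) • (Finsupp.single (show CM K i from celC i (x.1, D.ρ x.1 x.2))
        (MonoidAlgebra.single (D.k x.1 x.2) (1 : ℤ)) : CM K i →₀ MonoidAlgebra ℤ K)
    rw [Finsupp.smul_single, smul_eq_mul, MonoidAlgebra.single_mul_single, mul_one, (D.left x.1 g x.2).1,
      (D.left x.1 g x.2).2.1])
  refine ⟨⟨s, fun c => ?_⟩⟩
  show Finsupp.linearCombination (MonoidAlgebra ℤ K) id (s0 c) = c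
  rw [hs0]
  have h1 : Finsupp.linearCombination (MonoidAlgebra ℤ K) id ((cf D c).sum fun x n => n • F x) =
      (cf D c).sum fun x n => n • (show CM K i from celC i x) := by
    unfold Finsupp.sum
    rw [map_sum]
    refine Finset.sum_congr rfl fun x hx => ?_
    rw [map_zsmul]
    congr 1
    rw [Finsupp.linearCombination_single, id_eq, single_smul, tr_celC]
    have h2 : D.π x.1 x.2 = 1 := by
      by_contra h5
      rw [Finsupp.mem_support_iff, cf_apply, if_neg h5] at hx
      exact hx rfl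
    have h3 := D.eq x.1 x.2
    rw [h2, mul_one] at h3
    dsimp only
    rw [h3]
  rw [h1]
  exact cf_sum D c

end

end Pool.Agent.H15.CC
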