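import Pool.Agent.H15.CCF.F2
import Pool.Agent.H15.L.N496_CV_P_CON

/-!
# The chains with coefficients
-/

set_option autoImplicit false
set_option linter.unusedSectionVars false

noncomputable section

namespace Pool.Agent.H15.CC

open Pool.Agent.W907.SG Pool.Agent.W461.SGN Pool.Agent.N496.CV Pool.Agent.N496.LT V7N
open scoped TensorProduct

variable {V : Type} [Fintype V] [LinearOrder V] {G : SimpleGraph V} {K : Subgroup (W G)} {R : Type} [Ring R]
  (u : K →* R) {i : ℕ}

open Classical in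
/-- the extension of `u` by zero -/
def uu (x : W G) : R := if h : x ∈ K then u ⟨x, h⟩ else 0

theorem uu_left (h : K) (x : W G) : uu u (h * x) = u h * uu u x := by
  unfold uu
  by_cases hx : x ∈ K
  · have h1 : (h : W G) * x ∈ K := K.mul_mem h.2 hx
    rw [dif_pos hx, dif_pos h1, ← map_mul]
    rfl
  · have h1 : ¬ (h : W G) * x ∈ K := fun h2 => hx (by
      have := K.mul_mem (K.inv_mem h.2) h2
      rwa [inv_mul_cancel_left] at this)
    rw [dif_neg hx, dif_neg h1, mul_zero]

theorem uu_right (h : K) (x : W G) : uu u (x * (h : W G)) = uu u x * u h := by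
  unfold uu
  by_cases hx : x ∈ K
  · have h1 : x * (h : W G) ∈ K := K.mul_mem hx h.2
    rw [dif_pos hx, dif_pos h1, ← map_mul]
    rfl
  · have h1 : ¬ x * (h : W G) ∈ K := fun h2 => hx (by
      have := K.mul_mem h2 (K.inv_mem h.2)
      rwa [mul_inv_cancel_right] at this)
    rw [dif_neg hx, dif_neg h1, zero_mul]

theorem uu_mem {x : W G} (h : x ∈ K) : uu u x = u ⟨x, h⟩ := dif_pos h

theorem uu_not {x : W G} (h : x ∉ K) : uu u x = 0 := dif_neg h

theorem supp_fin (c : CG G i) (T : Finset V) (w : W G) :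
    (Function.support fun y => (c.1 T y) • uu u (y * w⁻¹)).Finite :=
  (c.2.mem T).subset fun y hy h => hy (by
    show (c.1 T y) • uu u (y * w⁻¹) = 0
    rw [h, zero_smul])

/-- the chain with coefficients of an integral chain -/
def gm : CM K i →+ (Finset V → W G → R) where
  toFun c T w := ∑ᶠ y, ((show CG G i from c).1 T y) • uu u (y * w⁻¹)
  map_zero' := by
    funext T w
    show (∑ᶠ y, (0 : ℤ) • uu u (y * w⁻¹)) = 0
    simp
  map_add' c d := by
    funext T w
    show (∑ᶠ y, ((show CG G i from c).1 T y + (show CG G i from d).1 T y) • uu u (y * w⁻¹)) = _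
    simp only [add_smul]
    exact finsum_add_distrib (supp_fin u c T w) (supp_fin u d T w)

theorem gm_apply (c : CM K i) (T : Finset V) (w : W G) :
    gm u c T w = ∑ᶠ y, ((show CG G i from c).1 T y) • uu u (y * w⁻¹) := rfl

theorem gm_single (h : K) (c : CM K i) (T : Finset V) (w : W G) :
    gm u (MonoidAlgebra.single h (1 : ℤ) • c) T w = u h * gm u c T w := by
  rw [single_smul, gm_apply, gm_apply, mul_finsum' _ _ (supp_fin u c T w)]
  have h1 : (∑ᶠ y, ((tr i (h : W G) c).1 T y) • uu u (y * w⁻¹)) =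
      ∑ᶠ y, ((tr i (h : W G) c).1 T ((h : W G) * y)) • uu u ((h : W G) * y * w⁻¹) :=
    (finsum_comp_equiv (Equiv.mulLeft (h : W G)) (f := fun y => ((tr i (h : W G) c).1 T y) • uu u (y * w⁻¹))).symm
  refine h1.trans (finsum_congr fun y => ?_)
  rw [tr_apply, inv_mul_cancel_left, mul_assoc, uu_left, mul_smul_comm]

theorem gm_ch (c : CM K i) : IsCh G Set.univ (InM K u Set.univ ⊥) i (gm u c) := by
  classical
  obtain ⟨c', hc'⟩ : ∃ c' : CG G i, c' = c := ⟨c, rfl⟩
  have hg : ∀ T w, gm u c T w = ∑ᶠ y, (c'.1 T y) • uu u (y * w⁻¹) := fun T w => by rw [hc']; rfl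
  refine ⟨fun T hT => ?_, fun T => ⟨fun w _ => trivial, fun p hp w => ?_, fun h w => ?_, ?_⟩, fun T t ht w => ?_⟩
  · funext w
    rw [hg, c'.2.supp T hT]
    show (∑ᶠ y, (0 : ℤ) • uu u (y * w⁻¹)) = 0
    simp
  · rw [Subgroup.mem_bot] at hp
    rw [hp]
    simp
  · rw [hg, hg, finsum_mul' _ _ (supp_fin u c' T w)]
    refine finsum_congr fun y => ?_
    have h1 : y * ((h : W G) * w)⁻¹ = y * w⁻¹ * ((h⁻¹ : K) : W G) := by
      push_cast
      group
    rw [h1, uu_right, smul_mul_assoc]
  · refine ⟨(c'.2.mem T).toFinset, fun w hw => ?_⟩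
    have h1 : ∃ y, (c'.1 T y) • uu u (y * w⁻¹) ≠ 0 := by
      by_contra h
      push Not at h
      apply hw
      rw [hg]
      exact (finsum_congr h).trans finsum_zero
    obtain ⟨y, hy⟩ := h1
    have h2 : y * w⁻¹ ∈ K := by
      by_contra h
      rw [uu_not u h, smul_zero] at hy
      exact hy rfl
    refine ⟨⟨_, K.inv_mem h2⟩, y, ?_, 1, Subgroup.one_mem _, ?_⟩
    · rw [Set.Finite.mem_toFinset]
      intro h
      rw [h, zero_smul] at hy
      exact hy rfl
    · show w = (y * w⁻¹)⁻¹ * y * 1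
      group
  · rw [hg, hg, ← finsum_neg_distrib]
    have h1 : (∑ᶠ y, (c'.1 T y) • uu u (y * (w * (cox G).simple t)⁻¹)) =
        ∑ᶠ y, (c'.1 T (y * (cox G).simple t)) • uu u (y * (cox G).simple t * (w * (cox G).simple t)⁻¹) :=
      (finsum_comp_equiv (Equiv.mulRight ((cox G).simple t))
        (f := fun y => (c'.1 T y) • uu u (y * (w * (cox G).simple t)⁻¹))).symm
    rw [h1]
    refine finsum_congr fun y => ?_
    have h2 : y * (cox G).simple t * (w * (cox G).simple t)⁻¹ = y * w⁻¹ := by group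
    rw [h2, c'.2.anti T t ht, neg_smul]

/-- the boundary -/
def bL (K : Subgroup (W G)) (i : ℕ) : CM K (i + 1) →ₗ[MonoidAlgebra ℤ K] CM K i :=
  mkL
    { toFun := fun c => (⟨bdf G (show CG G (i + 1) from c).1, DacAux.Ch_bdf (show CG G (i + 1) from c).2⟩ : CG G i)
      map_zero' := by
        apply Subtype.ext
        funext T w
        show ∑ v ∈ Tᶜ, sg v T • (0 : ℤ) = 0
        simp
      map_add' := fun c d => Subtype.ext (DacAux.bdf_add _ _) } (by
    intro g m
    rw [single_smul, single_smul]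
    rfl)

theorem bL_val (c : CM K (i + 1)) : (show CG G i from bL K i c).1 = bdf G (show CG G (i + 1) from c).1 := rfl

theorem gm_bL (c : CM K (i + 1)) : gm u (bL K i c) = bdf G (gm u c) := by
  classical
  funext T w
  rw [gm_apply]
  show (∑ᶠ y, (∑ v ∈ Tᶜ, sg v T • (show CG G (i + 1) from c).1 (insert v T) y) • uu u (y * w⁻¹)) =
    ∑ v ∈ Tᶜ, sg v T • gm u c (insert v T) w
  have h1 : ∀ y, (∑ v ∈ Tᶜ, sg v T • (show CG G (i + 1) from c).1 (insert v T) y) • uu u (y * w⁻¹) =
      ∑ v ∈ Tᶜ, sg v T • ((show CG G (i + 1) from c).1 (insert v T) y • uu u (y * w⁻¹)) := by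
    intro y
    rw [Finset.sum_smul]
    exact Finset.sum_congr rfl fun v _ => by rw [smul_assoc]
  rw [finsum_congr h1, finsum_sum_comm]
  · refine Finset.sum_congr rfl fun v _ => ?_
    rw [gm_apply]
    exact (smul_finsum' (sg v T) (supp_fin u c (insert v T) w)).symm
  · intro v _
    refine (supp_fin u c (insert v T) w).subset fun y hy h => hy ?_
    have h5 : (show CG G (i + 1) from c).1 (insert v T) y • uu u (y * w⁻¹) = 0 := h
    exact (congrArg (fun x => sg v T • x) h5).trans (smul_zero _)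

/-! ### The map on the tensor product -/

/-- the map on the tensor product -/
def PF (i : ℕ) : R ⊗[ℤ] CM K i →ₗ[R] (Finset V → W G → R) :=
  TensorProduct.AlgebraTensorModule.lift
    (LinearMap.toSpanSingleton R (CM K i →ₗ[ℤ] (Finset V → W G → R)) (gm u).toIntLinearMap)

theorem PF_tmul (x : R) (c : CM K i) : PF u i (x ⊗ₜ[ℤ] c) = x • gm u c := rfl

theorem PF_rel {i : ℕ} : bcR u (CM K i) ≤ LinearMap.ker (PF u i) := by
  rw [bcR, Submodule.span_le]
  rintro z ⟨x, g, c, rfl⟩
  show _ ∈ LinearMap.ker (PF u i)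
  rw [LinearMap.mem_ker, map_sub, sub_eq_zero, PF_tmul, PF_tmul]
  funext T w
  show (x * u g) * gm u c T w = x * gm u (MonoidAlgebra.single g (1 : ℤ) • c) T w
  rw [gm_single, mul_assoc]

/-- the map on the base change -/
def PP (i : ℕ) : BCG u (CM K i) →ₗ[R] (Finset V → W G → R) :=
  Submodule.liftQ (bcR u (CM K i)) (PF u i) (PF_rel u)

theorem PP_mk (x : R) (c : CM K i) : PP u i (Submodule.Quotient.mk (x ⊗ₜ[ℤ] c)) = x • gm u c := rfl

end Pool.Agent.H15.CC
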