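import Pool.Agent.H15.CCF.F3

/-!
# The base change of the chains is the module of the chains with coefficients
-/

set_option autoImplicit false
set_option linter.unusedSectionVars false

noncomputable section

namespace Pool.Agent.H15.CC

open Pool.Agent.W907.SG Pool.Agent.W461.SGN Pool.Agent.N496.CV Pool.Agent.N496.LT V7N
open scoped TensorProduct

variable {V : Type} [Fintype V] [LinearOrder V] {G : SimpleGraph V} {K : Subgroup (W G)} {R : Type} [Ring R]
  (u : K →* R) {i : ℕ} (D : Dt K i)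

/-- the cells, as elements of the module -/
def cm (K : Subgroup (W G)) (x : Tc G i × W G) : CM K i := celC i x

open Classical in
/-- the chain with coefficients of a representative -/
theorem gm_cel (x : Tc G i × W G) (hx : D.ρ x.1 x.2 = x.2) (T : Tc G i) (w : W G) :
    gm u (cm K x) T.1 w = if x = (T, D.ρ T w) then ((eps G (D.π T w) : ℤˣ) : ℤ) • u (D.k T w)⁻¹ else 0 := by
  have hg : gm u (cm K x) T.1 w = ∑ᶠ y, (cel x.1.1 x.2 T.1 y) • uu u (y * w⁻¹) := rfl
  rw [hg]
  have hrep := D.rep x.1 x.2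
  rw [hx] at hrep
  obtain ⟨hk, -, hπ⟩ := hrep
  -- the elements with a nonzero contribution
  have key : ∀ y, (cel x.1.1 x.2 T.1 y) • uu u (y * w⁻¹) ≠ 0 →
      x = (T, D.ρ T w) ∧ y = ((D.k T w : K) : W G)⁻¹ * w := by
    intro y hy
    have h1 : T.1 = x.1.1 ∧ x.2⁻¹ * y ∈ FT G x.1.1 := by
      by_contra h
      apply hy
      unfold cel
      rw [if_neg h, zero_smul]
    have h2 : y * w⁻¹ ∈ K := by
      by_contra h
      exact hy (by rw [uu_not u h, smul_zero])
    have hT : x.1 = T := Subtype.ext h1.1.symm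
    rw [hT] at h1 hk hπ hx
    obtain ⟨a1, a2, a3⟩ := D.right T x.2 _ h1.2
    have e1 : x.2 * (x.2⁻¹ * y) = y := by group
    rw [e1, hk] at a1
    rw [e1, hx] at a2
    obtain ⟨b1, b2, b3⟩ := D.left T ⟨_, h2⟩ w
    have e2 : ((⟨y * w⁻¹, h2⟩ : K) : W G) * w = y := by
      show y * w⁻¹ * w = y
      group
    rw [e2] at b1 b2 b3
    refine ⟨Prod.ext hT ?_, ?_⟩
    · show x.2 = D.ρ T w
      rw [← b2, a2]
    · rw [a1] at b1
      have h3 : ((D.k T w : K) : W G)⁻¹ = y * w⁻¹ := by
        have h4 : (⟨y * w⁻¹, h2⟩ : K) = (D.k T w)⁻¹ := (inv_eq_of_mul_eq_one_left b1.symm).symm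
        exact (congrArg Subtype.val h4).symm
      rw [h3]
      group
  by_cases h : x = (T, D.ρ T w)
  · rw [if_pos h]
    rw [finsum_eq_single _ (((D.k T w : K) : W G)⁻¹ * w) (fun y hy => by
      by_contra hne
      exact hy (key y hne).2)]
    have h1 : x.1 = T := congrArg Prod.fst h
    have h2 : x.2 = D.ρ T w := congrArg Prod.snd h
    have h3 : x.2⁻¹ * (((D.k T w : K) : W G)⁻¹ * w) = D.π T w := by
      rw [h2]
      conv_lhs => rw [← D.eq T w]
      have h9 := D.eq T w
      generalize hz : (D.k T w : K) = kk at *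
      generalize D.π T w = pp at *
      generalize hr : D.ρ T w = rr at *
      subst h9
      rw [hz, hr]
      group
    unfold cel
    rw [h3, if_pos ⟨congrArg Subtype.val h1.symm, by rw [h1]; exact D.mem T w⟩]
    congr 1
    have h4 : ((D.k T w : K) : W G)⁻¹ * w * w⁻¹ = (((D.k T w)⁻¹ : K) : W G) := by
      push_cast
      group
    rw [h4, uu_mem u ((D.k T w)⁻¹ : K).2]
  · rw [if_neg h]
    refine (finsum_congr fun y => ?_).trans finsum_zero
    by_contra hne
    exact h (key y hne).1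

theorem PP_ch (z : BCG u (CM K i)) : IsCh G Set.univ (InM K u Set.univ ⊥) i (PP u i z) := by
  obtain ⟨z, rfl⟩ := Submodule.Quotient.mk_surjective _ z
  induction z using TensorProduct.induction_on with
  | zero =>
    rw [Submodule.Quotient.mk_zero, map_zero]
    exact ⟨fun _ _ => rfl, fun T => C722.lin_InM.zero, fun T t _ w => by simp⟩
  | tmul x c =>
    rw [PP_mk]
    have h := gm_ch u c
    refine ⟨fun T hT => ?_, fun T => ⟨fun w _ => trivial, fun p hp w => ?_, fun k w => ?_, ?_⟩, fun T t ht w => ?_⟩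
    · rw [Pi.smul_apply, h.supp T hT, smul_zero]
    · show x * gm u c T (w * p.1) = _ • (x * gm u c T w)
      rw [(h.mem T).eqE p hp, mul_smul_comm]
    · show x * gm u c T (k * w) = x * gm u c T w * u k⁻¹
      rw [(h.mem T).eqK k w, mul_assoc]
    · obtain ⟨S, hS⟩ := (h.mem T).fin
      refine ⟨S, fun w hw => hS w fun h0 => hw ?_⟩
      show x * gm u c T w = 0
      rw [h0, mul_zero]
    · show x * gm u c T (w * (cox G).simple t) = - (x * gm u c T w)
      rw [h.anti T t ht, mul_neg]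
  | add x y hx hy =>
    rw [Submodule.Quotient.mk_add, map_add]
    exact C722.ch_add C722.lin_InM hx hy

open Classical in
/-- a sum of cells with coefficients at representatives -/
theorem PP_sum (a : (Tc G i × W G) →₀ R) (ha : ∀ x ∈ a.support, D.ρ x.1 x.2 = x.2) (T : Tc G i) (w : W G) :
    PP u i (a.sum fun x r => Submodule.Quotient.mk (r ⊗ₜ[ℤ] cm K x)) T.1 w =
      a (T, D.ρ T w) * (((eps G (D.π T w) : ℤˣ) : ℤ) • u (D.k T w)⁻¹) := by
  unfold Finsupp.sum
  rw [map_sum, Finset.sum_apply, Finset.sum_apply]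
  have h1 : ∀ x ∈ a.support, PP u i (Submodule.Quotient.mk (a x ⊗ₜ[ℤ] cm K x)) T.1 w =
      if x = (T, D.ρ T w) then a x * (((eps G (D.π T w) : ℤˣ) : ℤ) • u (D.k T w)⁻¹) else 0 := by
    intro x hx
    rw [PP_mk]
    show a x * gm u (cm K x) T.1 w = _
    rw [gm_cel u D x (ha x hx)]
    split_ifs
    · rfl
    · rw [mul_zero]
  rw [Finset.sum_congr rfl h1, Finset.sum_ite_eq']
  split_ifs with h
  · rfl
  · rw [Finsupp.notMem_support_iff] at h
    rw [h, zero_mul]

/-- every element is a sum of cells with coefficients at representatives -/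
theorem span_cel (z : BCG u (CM K i)) : ∃ a : (Tc G i × W G) →₀ R, (∀ x ∈ a.support, D.ρ x.1 x.2 = x.2) ∧
    z = a.sum fun x r => Submodule.Quotient.mk (r ⊗ₜ[ℤ] cm K x) := by
  classical
  have h0 : ∀ x : Tc G i × W G, (Submodule.Quotient.mk ((0 : R) ⊗ₜ[ℤ] cm K x) : BCG u (CM K i)) = 0 := fun x => by
    rw [TensorProduct.zero_tmul, Submodule.Quotient.mk_zero]
  have hadd : ∀ (x : Tc G i × W G) (r r' : R), (Submodule.Quotient.mk ((r + r') ⊗ₜ[ℤ] cm K x) : BCG u (CM K i)) =
      Submodule.Quotient.mk (r ⊗ₜ[ℤ] cm K x) + Submodule.Quotient.mk (r' ⊗ₜ[ℤ] cm K x) := fun x r r' => by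
    rw [TensorProduct.add_tmul, Submodule.Quotient.mk_add]
  let P : BCG u (CM K i) → Prop := fun z => ∃ a : (Tc G i × W G) →₀ R, (∀ x ∈ a.support, D.ρ x.1 x.2 = x.2) ∧
    z = a.sum fun x r => Submodule.Quotient.mk (r ⊗ₜ[ℤ] cm K x)
  have Padd : ∀ z z', P z → P z' → P (z + z') := by
    rintro _ _ ⟨a, ha, rfl⟩ ⟨b, hb, rfl⟩
    refine ⟨a + b, fun x hx => ?_, (Finsupp.sum_add_index' h0 hadd).symm⟩
    rcases Finset.mem_union.1 (Finsupp.support_add hx) with h | h
    · exact ha x h
    · exact hb x h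
  have Pzero : P 0 := ⟨0, fun x hx => absurd hx (by simp), by simp⟩
  have Psum : ∀ (S : Finset (Tc G i × W G)) (f : Tc G i × W G → BCG u (CM K i)), (∀ x ∈ S, P (f x)) →
      P (∑ x ∈ S, f x) := by
    intro S f
    induction S using Finset.induction_on with
    | empty => intro _; rw [Finset.sum_empty]; exact Pzero
    | insert a S ha ih =>
      intro h
      rw [Finset.sum_insert ha]
      exact Padd _ _ (h a (Finset.mem_insert_self _ _)) (ih fun x hx => h x (Finset.mem_insert_of_mem hx))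
  show P z
  obtain ⟨z, rfl⟩ := Submodule.Quotient.mk_surjective _ z
  induction z using TensorProduct.induction_on with
  | zero => rw [Submodule.Quotient.mk_zero]; exact Pzero
  | add x y hx hy => rw [Submodule.Quotient.mk_add]; exact Padd _ _ hx hy
  | tmul r c =>
    have h1 : c = ∑ x ∈ (cf D (show CG G i from c)).support, (cf D (show CG G i from c) x) • cm K x :=
      (cf_sum D (show CG G i from c)).symm
    have h2 : (Submodule.Quotient.mk (r ⊗ₜ[ℤ] c) : BCG u (CM K i)) =
        ∑ x ∈ (cf D (show CG G i from c)).support,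
          Submodule.Quotient.mk (r ⊗ₜ[ℤ] ((cf D (show CG G i from c) x) • cm K x)) := by
      conv_lhs => rw [h1]
      rw [TensorProduct.tmul_sum]
      exact map_sum (Submodule.mkQ (bcR u (CM K i))) _ _
    rw [h2]
    refine Psum _ _ fun x hx => ?_
    have hπ : D.π x.1 x.2 = 1 := by
      by_contra h5
      rw [Finsupp.mem_support_iff, cf_apply, if_neg h5] at hx
      exact hx rfl
    have h3 : cm K x = MonoidAlgebra.single (D.k x.1 x.2) (1 : ℤ) • cm K (x.1, D.ρ x.1 x.2) := by
      rw [single_smul]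
      show celC i x = tr i _ (celC i _)
      rw [tr_celC]
      have h4 := D.eq x.1 x.2
      rw [hπ, mul_one] at h4
      dsimp only
      rw [h4]
    have h5 : (Submodule.Quotient.mk (r ⊗ₜ[ℤ] ((cf D (show CG G i from c) x) • cm K x)) : BCG u (CM K i)) =
        Submodule.Quotient.mk ((((cf D (show CG G i from c) x) • r) * u (D.k x.1 x.2)) ⊗ₜ[ℤ]
          cm K (x.1, D.ρ x.1 x.2)) := by
      rw [Submodule.Quotient.eq]
      refine (Submodule.neg_mem_iff _).1 ?_
      rw [neg_sub, TensorProduct.tmul_smul, TensorProduct.smul_tmul', h3]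
      exact Submodule.subset_span ⟨_, _, _, rfl⟩
    rw [h5]
    refine ⟨Finsupp.single (x.1, D.ρ x.1 x.2) (((cf D (show CG G i from c) x) • r) * u (D.k x.1 x.2)),
      fun y hy => ?_, ?_⟩
    · have h6 := Finsupp.support_single_subset hy
      rw [Finset.mem_singleton] at h6
      rw [h6]
      exact (D.rep x.1 x.2).2.1
    · rw [Finsupp.sum_single_index (h0 _)]

/-- The map is injective. -/
theorem PP_inj (D : Dt K i) (z : BCG u (CM K i)) (hz : PP u i z = 0) : z = 0 := by
  classical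
  obtain ⟨a, ha, rfl⟩ := span_cel u D z
  have h1 : a = 0 := by
    ext x
    by_cases hx : x ∈ a.support
    · have hx' := ha x hx
      have h2 := PP_sum u D a ha x.1 x.2
      rw [hz] at h2
      have hrep := D.rep x.1 x.2
      rw [hx'] at hrep
      rw [hrep.1, hrep.2.2, hx'] at h2
      simp only [map_one, inv_one, Units.val_one, one_smul, mul_one] at h2
      exact h2.symm
    · rw [Finsupp.notMem_support_iff] at hx
      rw [hx]
      rfl
  rw [h1]
  simp

/-- Every chain with coefficients is in the image. -/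
theorem PP_surj (D : Dt K i) (F : Finset V → W G → R) (hF : IsCh G Set.univ (InM K u Set.univ ⊥) i F) :
    ∃ z, PP u i z = F := by
  classical
  have hfin : (Function.support fun x : Tc G i × W G =>
      if D.ρ x.1 x.2 = x.2 then F x.1.1 x.2 else 0).Finite := by
    have h1 := fun T : Tc G i => (hF.mem T.1).fin
    choose S hS using h1
    refine (Set.finite_iUnion fun T : Tc G i => ((S T).finite_toSet.image fun w => (T, D.ρ T w))).subset
      fun x hx => ?_
    have h2 : D.ρ x.1 x.2 = x.2 ∧ F x.1.1 x.2 ≠ 0 := by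
      by_cases h : D.ρ x.1 x.2 = x.2
      · refine ⟨h, fun h' => hx ?_⟩
        show (if D.ρ x.1 x.2 = x.2 then F x.1.1 x.2 else 0) = 0
        rw [h', ite_self]
      · exact absurd (if_neg h) hx
    obtain ⟨h, y, hy, p, hp, he⟩ := hS x.1 x.2 h2.2
    rw [Subgroup.mem_bot] at hp
    rw [hp] at he
    refine Set.mem_iUnion.2 ⟨x.1, y, hy, ?_⟩
    refine Prod.ext rfl ?_
    show D.ρ x.1 y = x.2
    rw [← (D.left x.1 h y).2.1]
    have h3 : (h : W G) * y = x.2 := by rw [he]; simp
    rw [h3, h2.1]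
  obtain ⟨a, ha⟩ : ∃ a : (Tc G i × W G) →₀ R, ∀ x, a x = if D.ρ x.1 x.2 = x.2 then F x.1.1 x.2 else 0 :=
    ⟨Finsupp.ofSupportFinite _ hfin, fun x => rfl⟩
  have ha' : ∀ x ∈ a.support, D.ρ x.1 x.2 = x.2 := by
    intro x hx
    by_contra h
    rw [Finsupp.mem_support_iff, ha, if_neg h] at hx
    exact hx rfl
  refine ⟨a.sum fun x r => Submodule.Quotient.mk (r ⊗ₜ[ℤ] cm K x), ?_⟩
  funext T w
  by_cases hT : G.IsClique (T : Set V) ∧ T.card = i
  · obtain ⟨T', hT'⟩ : ∃ T' : Tc G i, T'.1 = T := ⟨⟨T, hT⟩, rfl⟩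
    subst hT'
    rw [PP_sum u D a ha', ha]
    dsimp only
    rw [if_pos (D.rep T' w).2.1]
    have h1 : F T'.1 (((D.k T' w : K) : W G) * D.ρ T' w * D.π T' w) = F T'.1 w := by rw [D.eq]
    rw [← h1, anti_FT (hF.anti T'.1) (D.mem T' w), (hF.mem T'.1).eqK, mul_smul_comm]
  · rw [(PP_ch u _).supp T (fun h => hT ⟨h.1, h.2.2⟩), hF.supp T (fun h => hT ⟨h.1, h.2.2⟩)]

theorem PP_bL (z : BCG u (CM K (i + 1))) : PP u i (bcM u (bL K i) z) = bdf G (PP u (i + 1) z) := by
  obtain ⟨z, rfl⟩ := Submodule.Quotient.mk_surjective _ z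
  induction z using TensorProduct.induction_on with
  | zero =>
    rw [Submodule.Quotient.mk_zero, map_zero, map_zero, map_zero]
    funext T w
    show (0 : R) = ∑ v ∈ Tᶜ, sg v T • (0 : R)
    simp
  | tmul x c =>
    rw [bcM_mk, PP_mk, PP_mk, gm_bL]
    funext T w
    show x * (∑ v ∈ Tᶜ, sg v T • gm u c (insert v T) w) = ∑ v ∈ Tᶜ, sg v T • (x * gm u c (insert v T) w)
    rw [Finset.mul_sum]
    exact Finset.sum_congr rfl fun v _ => mul_smul_comm _ _ _
  | add x y hx hy =>
    rw [Submodule.Quotient.mk_add, map_add, map_add, map_add, hx, hy, C722.bdf_add]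

end Pool.Agent.H15.CC
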