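import Pool.Agent.H15.CCF.F4
import Pool.Agent.H7.L.Helper970_V7_P_homology_succ
import Pool.Agent.H7.L.N496_CV_P_FINAL
import Pool.Agent.H7.L.N496_CV_P_LEN
import Pool.Agent.H7.L.N496_CV_P_RU
import Pool.Agent.H15.L.N496_CV_Asm

/-!
# The `L²`-Betti numbers of the torsion free subgroups from the chains of functions
-/

set_option autoImplicit false
set_option linter.unusedSectionVars false

noncomputable section

namespace Pool.Agent.H15.CC

open CategoryTheory Pool.Agent.W907.SG Pool.Agent.W461.SGN Pool.Agent.N496.CV Pool.Agent.N496.LT V7N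
open Pool.Agent.Helper655.VN Pool.Agent.RK
open scoped TensorProduct

attribute [local instance] VN831.bcFunctor_additive V7N.bcF_additive

variable {V : Type} [Fintype V] [LinearOrder V] {G : SimpleGraph V} (K : Subgroup (W G))

theorem aug_smul (g : K) (z : trivG K) : MonoidAlgebra.single g (1 : ℤ) • z = z := by
  show augG K (MonoidAlgebra.single g (1 : ℤ)) * (show ℤ from z) = (show ℤ from z)
  have h : augG K (MonoidAlgebra.single g (1 : ℤ)) = 1 := by
    show MonoidAlgebra.lift ℤ ℤ K (1 : K →* ℤ) (MonoidAlgebra.single g (1 : ℤ)) = 1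
    rw [MonoidAlgebra.lift_single]
    simp
  rw [h, one_mul]

/-- the augmentation -/
def eL : CM K 0 →ₗ[MonoidAlgebra ℤ K] trivG K :=
  mkL
    { toFun := fun c => (show ℤ from ∑ᶠ w, (show CG G 0 from c).1 ∅ w)
      map_zero' := by
        show (∑ᶠ w : W G, (0 : ℤ)) = 0
        exact finsum_zero
      map_add' := fun c d => finsum_add_distrib ((show CG G 0 from c).2.mem ∅) ((show CG G 0 from d).2.mem ∅) } (by
    intro g m
    rw [single_smul]
    refine Eq.trans ?_ (aug_smul K g _).symm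
    show (∑ᶠ w, (show CG G 0 from m).1 ∅ ((g : W G)⁻¹ * w)) = ∑ᶠ w, (show CG G 0 from m).1 ∅ w
    exact finsum_comp_equiv (Equiv.mulLeft (g : W G)⁻¹) (f := fun w => (show CG G 0 from m).1 ∅ w))

theorem eL_apply (c : CM K 0) : (show ℤ from eL K c) = ∑ᶠ w, (show CG G 0 from c).1 ∅ w := rfl

theorem bLbL (n : ℕ) : ModuleCat.ofHom (bL K (n + 1)) ≫ ModuleCat.ofHom (bL K n) = 0 := by
  rw [← ModuleCat.ofHom_comp]
  have h : (bL K n).comp (bL K (n + 1)) = 0 := by
    apply LinearMap.ext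
    intro c
    exact Subtype.ext (DacAux.bdf_bdf _)
  rw [h]
  rfl

/-- the integral chains as a complex -/
def cplx : ChainComplex (ModuleCat.{0} (MonoidAlgebra ℤ K)) ℕ :=
  ChainComplex.of (fun n => ModuleCat.of (MonoidAlgebra ℤ K) (CM K n)) (fun n => ModuleCat.ofHom (bL K n))
    (fun n => bLbL K n)

theorem cplx_d (n : ℕ) : (cplx K).d (n + 1) n = ModuleCat.ofHom (bL K n) :=
  ChainComplex.of_d (fun n => ModuleCat.of (MonoidAlgebra ℤ K) (CM K n)) (fun n => ModuleCat.ofHom (bL K n)) n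

/-- the augmentation as a morphism -/
def eH : ModuleCat.of (MonoidAlgebra ℤ K) (CM K 0) ⟶ trivG K :=
  ModuleCat.ofHom (X := CM K 0) (Y := trivG K) (eL K)

theorem sum_one : ∑ᶠ w, (celC (G := G) 0 (⟨∅, by simp, rfl⟩, (1 : W G))).1 ∅ w = 1 := by
  classical
  have h1 : ∀ w : W G, (celC (G := G) 0 (⟨∅, by simp, rfl⟩, (1 : W G))).1 ∅ w = if w = 1 then 1 else 0 := by
    intro w
    rw [celC_apply]
    show cel ∅ 1 ∅ w = _
    unfold cel FT
    simp only [Finset.coe_empty, Set.image_empty, Subgroup.closure_empty, Subgroup.mem_bot, inv_one, one_mul,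
      true_and]
    split_ifs with h
    · rw [h]
      simp
    · rfl
  rw [finsum_congr h1]
  rw [finsum_eq_single _ (1 : W G) (fun w hw => if_neg hw)]
  exact if_pos rfl

/-- the resolution -/
theorem exists_res (hK : ∀ k ∈ K, ∀ n : ℕ, 0 < n → k ^ n = 1 → k = 1) :
    ∃ P : ProjectiveResolution (trivG K), P.complex = cplx K := by
  have hdac := dac len
  refine gen_res (fun n => ModuleCat.of (MonoidAlgebra ℤ K) (CM K n)) (fun n => ModuleCat.ofHom (bL K n))
    (fun n => bLbL K n) (trivG K) (eH K) ?_ ?_ ?_ ?_ ?_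
  · intro n
    obtain ⟨D⟩ := exists_dt hK n
    exact (IsProjective.iff_projective (R := MonoidAlgebra ℤ K) (CM K n)).1 (proj D)
  · apply ModuleCat.hom_ext
    apply LinearMap.ext
    intro c
    exact DacAux.fs_bdf (show CG G 1 from c).2
  · intro z
    obtain ⟨n, hn⟩ : ∃ n : ℤ, n = z := ⟨z, rfl⟩
    subst hn
    refine ⟨(show CM K 0 from n • celC 0 (⟨∅, by simp, rfl⟩, (1 : W G))), ?_⟩
    show (eL K) (n • (show CM K 0 from celC 0 (⟨∅, by simp, rfl⟩, (1 : W G)))) = n
    rw [map_zsmul]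
    have h1 : (eL K) (show CM K 0 from celC 0 (⟨∅, by simp, rfl⟩, (1 : W G))) = (1 : ℤ) := sum_one
    have h2 : n • (1 : ℤ) = n := by simp
    exact (congrArg (fun x : trivG K => n • x) h1).trans h2
  · intro v hv
    have h1 : ∑ᶠ w, (show CG G 0 from v).1 ∅ w = 0 := hv
    have h0 : bdf G (show CG G 0 from v).1 = 0 := by
      funext T w
      refine Finset.sum_eq_zero fun x _ => ?_
      rw [(show CG G 0 from v).2.supp (insert x T), Pi.zero_apply, smul_zero]
      rintro ⟨-, -, h⟩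
      rw [Finset.card_eq_zero] at h
      exact Finset.insert_ne_empty _ _ h
    obtain ⟨e, he, heq⟩ := hdac V G 0 _ (show CG G 0 from v).2 h0 (fun _ => h1)
    exact ⟨(⟨e, he⟩ : CG G 1), Subtype.ext heq⟩
  · intro n v hv
    have h0 : bdf G (show CG G (n + 1) from v).1 = 0 := congrArg Subtype.val hv
    obtain ⟨e, he, heq⟩ := hdac V G (n + 1) _ (show CG G (n + 1) from v).2 h0 (fun h => absurd h (Nat.succ_ne_zero n))
    exact ⟨(⟨e, he⟩ : CG G (n + 1 + 1)), Subtype.ext heq⟩

/-- The homology of the torsion free subgroup with coefficients: a property of its elements. -/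
theorem hom_prop {R : Type} [Ring R] (u : K →* R) (hK : ∀ k ∈ K, ∀ n : ℕ, 0 < n → k ^ n = 1 → k = 1) (n : ℕ)
    (P : R → Prop) (H : ∀ c, IsCh G Set.univ (InM K u Set.univ ⊥) (n + 1) c → bdf G c = 0 →
      ∃ s, P s ∧ ∃ e, IsCh G Set.univ (InM K u Set.univ ⊥) (n + 2) e ∧ bdf G e = s • c)
    (m : ((bcF u).leftDerived (n + 1)).obj (trivG K)) : ∃ s, P s ∧ s • m = 0 := by
  obtain ⟨Q, hQ⟩ := exists_res K hK
  have h1 : Nonempty (((bcF u).leftDerived (n + 1)).obj (trivG K) ≅
      (((bcF u).mapHomologicalComplex (ComplexShape.down ℕ)).obj Q.complex).homology (n + 1)) :=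
    ⟨Q.isoLeftDerivedObj (bcF u) (n + 1)⟩
  rw [hQ] at h1
  obtain ⟨i1⟩ := h1
  have l1 := i1.toLinearEquiv
  obtain ⟨l2⟩ := homology_succ (((bcF u).mapHomologicalComplex (ComplexShape.down ℕ)).obj (cplx K)) n
  have d1 : (((bcF u).mapHomologicalComplex (ComplexShape.down ℕ)).obj (cplx K)).d (n + 1 + 1) (n + 1) =
      ModuleCat.ofHom (bcM u (bL K (n + 1))) := by
    change (bcF u).map ((cplx K).d (n + 1 + 1) (n + 1)) = _
    rw [cplx_d]
    rfl
  have d0 : (((bcF u).mapHomologicalComplex (ComplexShape.down ℕ)).obj (cplx K)).d (n + 1) n =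
      ModuleCat.ofHom (bcM u (bL K n)) := by
    change (bcF u).map ((cplx K).d (n + 1) n) = _
    rw [cplx_d]
    rfl
  rw [d1, d0] at l2
  have l3 := l1.trans l2
  have key : ∀ q : (LinearMap.ker (bcM u (bL K n))) ⧸
      (LinearMap.range (bcM u (bL K (n + 1)))).submoduleOf (LinearMap.ker (bcM u (bL K n))),
      ∃ s, P s ∧ s • q = 0 := by
    intro q
    obtain ⟨⟨z, hz⟩, rfl⟩ := Submodule.Quotient.mk_surjective _ q
    have hz' : bcM u (bL K n) z = 0 := hz
    have hc : bdf G (PP u (n + 1) z) = 0 := by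
      rw [← PP_bL, hz', map_zero]
    obtain ⟨s, hs, e, he, hbe⟩ := H _ (PP_ch u z) hc
    obtain ⟨D2⟩ := exists_dt hK (n + 2)
    obtain ⟨D1⟩ := exists_dt hK (n + 1)
    obtain ⟨y, hy⟩ := PP_surj u D2 e he
    refine ⟨s, hs, ?_⟩
    rw [← Submodule.Quotient.mk_smul, Submodule.Quotient.mk_eq_zero]
    refine ⟨y, ?_⟩
    show bcM u (bL K (n + 1)) y = s • z
    rw [← sub_eq_zero]
    apply PP_inj u D1
    rw [map_sub, PP_bL, hy, hbe, map_smul, sub_self]
  obtain ⟨s, hs, hs0⟩ := key (l3 m)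
  refine ⟨s, hs, ?_⟩
  apply l3.injective
  rw [map_smul, map_zero]
  exact hs0

/-- The `L²`-Betti numbers of a torsion free subgroup from the chains of functions. -/
theorem betti_zero (hK : ∀ k ∈ K, ∀ n : ℕ, 0 < n → k ^ n = 1 → k = 1) (n : ℕ)
    (H : ∀ (U : Type) [Ring U] (ι : NG K →+* U) (u : K →* U), Loc ι → (∀ h, u h = ι (canL h)) → Rg K u →
      Hv G Set.univ (InM K u Set.univ ⊥) (n + 1)) : VN831.l2Betti K (n + 1) = 0 := by
  classical
  show VN831.luckDim K (VN831.homN K (n + 1)) = 0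
  refine FinAux.luck_zero (hom_prop K (canL : K →* NG K) hK n Nz fun c hc hb => ?_)
  obtain ⟨U, hU, ι, hloc⟩ := Pool.Agent.RK.LocEx.loc_exists (vn_NG (G := K))
  have htf : ∀ (k : K) (n : ℕ), 0 < n → k ^ n = 1 → k = 1 := by
    intro k m hm hk
    exact Subtype.ext (hK k.1 k.2 m hm (by simpa using congrArg Subtype.val hk))
  obtain ⟨h2, hinv⟩ := ru K U ι hloc htf
  obtain ⟨u, hu⟩ : ∃ u : K →* U, ∀ h, u h = ι (canL h) := ⟨(ι : NG K →* U).comp canL, fun h => rfl⟩
  have hRg : Rg K u := ⟨htf, h2, fun h hh => by rw [hu]; exact hinv h hh⟩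
  have hc' : IsCh G Set.univ (InM K u Set.univ ⊥) (n + 1) (fun T w => ι (c T w)) := by
    refine ⟨fun T hT => ?_, fun T => ⟨fun w _ => trivial, fun p hp w => ?_, fun h w => ?_, ?_⟩, fun T t ht w => ?_⟩
    · funext w
      rw [hc.supp T hT]
      exact map_zero ι
    · rw [(hc.mem T).eqE p hp, map_zsmul]
    · rw [(hc.mem T).eqK h w, map_mul, hu]
    · obtain ⟨S, hS⟩ := (hc.mem T).fin
      exact ⟨S, fun w hw => hS w fun h0 => hw (by rw [h0, map_zero])⟩
    · rw [hc.anti T t ht, map_neg]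
  have hb' : bdf G (fun T w => ι (c T w)) = 0 := by
    funext T w
    have h5 := congrFun (congrFun hb T) w
    have h6 : bdf G (fun T w => ι (c T w)) T w = ι (bdf G c T w) := by
      unfold bdf
      rw [map_sum]
      exact Finset.sum_congr rfl fun v _ => (map_zsmul ι _ _).symm
    rw [h6, h5]
    exact map_zero ι
  obtain ⟨e2, he2, hbe⟩ := H U ι u hloc hu hRg _ hc' hb'
  -- clear the denominators
  have hfin := fun T : Finset V => (he2.mem T).fin
  choose S hS using hfin
  obtain ⟨s, hs, hx⟩ := common_denominator hloc (fun a b ha hb => Pool.Agent.RK.Nz.nz_mul a b ha hb)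
    ((Finset.univ : Finset (Finset V)).sigma fun T => S T) (fun a => e2 a.1 a.2)
  have hall : ∀ T w, ∃ x : NG K, ι s * e2 T w = ι x := by
    intro T w
    by_cases h0 : e2 T w = 0
    · exact ⟨0, by rw [h0, mul_zero, map_zero]⟩
    · obtain ⟨h, x, hxS, p, hp, hgx⟩ := hS T w h0
      rw [Subgroup.mem_bot] at hp
      have hgx' : w = h * x := by rw [hgx, hp]; simp
      obtain ⟨y, hy⟩ := hx ⟨T, x⟩ (Finset.mem_sigma.2 ⟨Finset.mem_univ _, hxS⟩)
      refine ⟨y * canL h⁻¹, ?_⟩
      rw [hgx', (he2.mem T).eqK h x, ← mul_assoc, hy, map_mul, hu]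
  choose e he using hall
  have hzero : ∀ T w, e2 T w = 0 → e T w = 0 := by
    intro T w h0
    apply hloc.inj
    rw [← he, h0, mul_zero, map_zero]
  refine ⟨s, hs, e, ⟨fun T hT => ?_, fun T => ⟨fun w _ => trivial, fun p hp w => ?_, fun h w => ?_, ?_⟩,
    fun T t ht w => ?_⟩, ?_⟩
  · funext w
    exact hzero T w (by rw [he2.supp T hT]; rfl)
  · rw [Subgroup.mem_bot] at hp
    rw [hp]
    simp
  · apply hloc.inj
    rw [← he, (he2.mem T).eqK h w, ← mul_assoc, he, map_mul, hu]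
  · exact ⟨S T, fun w hw => hS T w fun h0 => hw (hzero T w h0)⟩
  · apply hloc.inj
    rw [← he, he2.anti T t ht, mul_neg, he, map_neg]
  · funext T w
    apply hloc.inj
    have h6 : ι (bdf G e T w) = ι s * bdf G e2 T w := by
      unfold bdf
      rw [map_sum, Finset.mul_sum]
      refine Finset.sum_congr rfl fun v _ => ?_
      rw [map_zsmul, ← he, mul_smul_comm]
    rw [h6, hbe]
    exact (map_mul ι _ _).symm

end Pool.Agent.H15.CC
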