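import Pool.Agent.H15.CCF.R1

/-!
# Directed unions of subgroups, and the transfer
-/

set_option autoImplicit false
set_option linter.unusedSectionVars false

noncomputable section

namespace Pool.Agent.H15.CC

open CategoryTheory V7N
open scoped TensorProduct

attribute [local instance] V7N.bcF_additive

section gen

variable {K : Type} [Group K] {R : Type} [Ring R] (u : K →* R)

/-- the map on the tensor product -/
def tm {X Y : Type} [AddCommGroup X] [AddCommGroup Y] (f : X →+ Y) : R ⊗[ℤ] X →ₗ[R] R ⊗[ℤ] Y :=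
  TensorProduct.AlgebraTensorModule.map (LinearMap.id : R →ₗ[R] R) f.toIntLinearMap

theorem bcM_tm {X Y : Type} [AddCommGroup X] [Module (MonoidAlgebra ℤ K) X] [AddCommGroup Y]
    [Module (MonoidAlgebra ℤ K) Y] (f : X →ₗ[MonoidAlgebra ℤ K] Y) (t : R ⊗[ℤ] X) :
    bcM u f (Submodule.Quotient.mk t) = Submodule.Quotient.mk (tm f.toAddMonoidHom t) := rfl

/-- the relations for a finite set of elements of the group -/
def relS (X : Type) [AddCommGroup X] [Module (MonoidAlgebra ℤ K) X] (S : Set K) : Submodule R (R ⊗[ℤ] X) :=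
  Submodule.span R {z | ∃ (x : R) (g : K) (p : X), g ∈ S ∧
    z = (x * u g) ⊗ₜ[ℤ] p - x ⊗ₜ[ℤ] ((MonoidAlgebra.single g (1 : ℤ)) • p)}

theorem relS_mono (X : Type) [AddCommGroup X] [Module (MonoidAlgebra ℤ K) X] {S S' : Set K} (h : S ⊆ S') :
    relS u X S ≤ relS u X S' := by
  refine Submodule.span_mono ?_
  rintro z ⟨x, g, p, hg, rfl⟩
  exact ⟨x, g, p, h hg, rfl⟩

theorem exists_relS (X : Type) [AddCommGroup X] [Module (MonoidAlgebra ℤ K) X] (t : R ⊗[ℤ] X) (ht : t ∈ bcR u X) :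
    ∃ S : Finset K, t ∈ relS u X (S : Set K) := by
  classical
  unfold bcR at ht
  induction ht using Submodule.span_induction with
  | mem z hz =>
    obtain ⟨x, g, p, rfl⟩ := hz
    exact ⟨{g}, Submodule.subset_span ⟨x, g, p, by simp, rfl⟩⟩
  | zero => exact ⟨∅, zero_mem _⟩
  | add a b _ _ ha hb =>
    obtain ⟨S, hS⟩ := ha
    obtain ⟨S', hS'⟩ := hb
    refine ⟨S ∪ S', add_mem (relS_mono u X ?_ hS) (relS_mono u X ?_ hS')⟩
    · rw [Finset.coe_union]; exact Set.subset_union_left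
    · rw [Finset.coe_union]; exact Set.subset_union_right
  | smul c a _ ha =>
    obtain ⟨S, hS⟩ := ha
    exact ⟨S, Submodule.smul_mem _ c hS⟩

/-- the module over a subgroup -/
@[reducible] def rst {K₁ : Type} [Group K₁] (i : K₁ →* K) (X : Type) [AddCommGroup X] [Module (MonoidAlgebra ℤ K) X] :
    Module (MonoidAlgebra ℤ K₁) X := Module.compHom X (inc i)

theorem rst_single {K₁ : Type} [Group K₁] (i : K₁ →* K) (X : Type) [AddCommGroup X] [Module (MonoidAlgebra ℤ K) X]
    (g : K₁) (p : X) : (letI := rst i X; (MonoidAlgebra.single g (1 : ℤ) : MonoidAlgebra ℤ K₁) • p) =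
      MonoidAlgebra.single (i g) (1 : ℤ) • p := by
  show inc i (MonoidAlgebra.single g (1 : ℤ)) • p = _
  rw [inc_single]

/-- the relations over a subgroup -/
def bcS {K₁ : Type} [Group K₁] (i : K₁ →* K) (X : Type) [AddCommGroup X] [Module (MonoidAlgebra ℤ K) X] :
    Submodule R (R ⊗[ℤ] X) :=
  letI := rst i X
  bcR (u.comp i) X

theorem bcS_eq {K₁ : Type} [Group K₁] (i : K₁ →* K) (X : Type) [AddCommGroup X] [Module (MonoidAlgebra ℤ K) X] :
    bcS u i X = Submodule.span R {z | ∃ (x : R) (g : K₁) (p : X),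
      z = (x * u (i g)) ⊗ₜ[ℤ] p - x ⊗ₜ[ℤ] ((MonoidAlgebra.single (i g) (1 : ℤ)) • p)} := by
  have h : ∀ (g : K₁) (p : X), (letI := rst i X; (MonoidAlgebra.single g (1 : ℤ) : MonoidAlgebra ℤ K₁) • p) =
      MonoidAlgebra.single (i g) (1 : ℤ) • p := fun g p => rst_single i X g p
  unfold bcS bcR
  congr 1
  ext z
  constructor
  · rintro ⟨x, g, p, rfl⟩
    refine ⟨x, g, p, ?_⟩
    rw [← h]
    rfl
  · rintro ⟨x, g, p, rfl⟩
    refine ⟨x, g, p, ?_⟩
    rw [← h]
    rfl

theorem relS_le (F : Subgroup K) (X : Type) [AddCommGroup X] [Module (MonoidAlgebra ℤ K) X] :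
    relS u X (F : Set K) ≤ bcS u F.subtype X := by
  rw [bcS_eq]
  refine Submodule.span_mono ?_
  rintro _ ⟨x, g, p, hg, rfl⟩
  exact ⟨x, ⟨g, hg⟩, p, rfl⟩

theorem bcS_le {K₁ : Type} [Group K₁] (i : K₁ →* K) (X : Type) [AddCommGroup X] [Module (MonoidAlgebra ℤ K) X] :
    bcS u i X ≤ bcR u X := by
  rw [bcS_eq]
  refine Submodule.span_mono ?_
  rintro _ ⟨x, g, p, rfl⟩
  exact ⟨x, i g, p, rfl⟩

/-- `Tors` for the restriction, in terms of the tensor product -/
theorem tors_res {K₁ : Type} [Group K₁] (i : K₁ →* K) (hi : Function.Injective i) (E : ERes K) (n : ℕ)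
    (P : R → Prop) : Tors (E.res i hi) (u.comp i) n P ↔ ∀ t : R ⊗[ℤ] E.X (n + 1),
      tm (E.d n).toAddMonoidHom t ∈ bcS u i (E.X n) → ∃ s, P s ∧ ∃ y : R ⊗[ℤ] E.X (n + 1 + 1),
        tm (E.d (n + 1)).toAddMonoidHom y - s • t ∈ bcS u i (E.X (n + 1)) := by
  constructor
  · intro H t ht
    obtain ⟨s, hs, y, hy⟩ := H (Submodule.Quotient.mk t) ((Submodule.Quotient.mk_eq_zero _).2 ht)
    obtain ⟨y, rfl⟩ := Submodule.Quotient.mk_surjective _ y
    exact ⟨s, hs, y, (Submodule.Quotient.eq _).1 hy⟩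
  · intro H z hz
    obtain ⟨t, rfl⟩ := Submodule.Quotient.mk_surjective _ z
    obtain ⟨s, hs, y, hy⟩ := H t ((Submodule.Quotient.mk_eq_zero _).1 hz)
    exact ⟨s, hs, Submodule.Quotient.mk y, (Submodule.Quotient.eq _).2 hy⟩

/-- Directed unions. -/
theorem hp_colim (n : ℕ) (P : R → Prop)
    (H : ∀ S : Finset K, ∃ F : Subgroup K, (S : Set K) ⊆ F ∧ HP (u.comp F.subtype) n P) : HP u n P := by
  classical
  obtain ⟨E⟩ := exists_eres K
  rw [hp_iff E]
  intro z hz
  obtain ⟨t, rfl⟩ := Submodule.Quotient.mk_surjective _ z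
  rw [bcM_tm, Submodule.Quotient.mk_eq_zero] at hz
  obtain ⟨S, hS⟩ := exists_relS u _ _ hz
  obtain ⟨F, hF, hH⟩ := H S
  have hi : Function.Injective F.subtype := Subgroup.subtype_injective F
  rw [hp_iff (E.res F.subtype hi), tors_res] at hH
  obtain ⟨s, hs, y, hy⟩ := hH t (relS_le u F _ (relS_mono u _ hF hS))
  refine ⟨s, hs, Submodule.Quotient.mk y, ?_⟩
  rw [bcM_tm, ← Submodule.Quotient.mk_smul, Submodule.Quotient.eq]
  exact bcS_le u F.subtype _ hy

end gen

section transfer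

variable {K₁ K : Type} [Group K₁] [Group K] {R : Type} [Ring R] (i : K₁ →* K)
  (u : K →* R) (T : Finset K) (X : Type) [AddCommGroup X] [Module (MonoidAlgebra ℤ K) X]

/-- the transfer of an element -/
def ta (g : K) : X →+ X where
  toFun p := MonoidAlgebra.single g (1 : ℤ) • p
  map_zero' := smul_zero _
  map_add' := smul_add _

/-- the transfer on the tensor product -/
def tau : R ⊗[ℤ] X →+ R ⊗[ℤ] X :=
  ∑ g ∈ T, (TensorProduct.map (AddMonoidHom.mulRight (u g⁻¹)).toIntLinearMap (ta X g).toIntLinearMap).toAddMonoidHom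

theorem grp_aux (A B r g g' k : K) (e1 : A * r = g * k) (e2 : B * r = g' * k) : g = A * B⁻¹ * g' := by
  have h1 : g' = B * r * k⁻¹ := by rw [e2]; group
  have h2 : g = A * r * k⁻¹ := by rw [e1]; group
  rw [h1, h2]
  group

theorem grp_aux2 (A r g k : K) (e1 : A * r = g * k⁻¹) : r * k = A⁻¹ * g := by
  have h1 : r = A⁻¹ * (g * k⁻¹) := by rw [← e1]; group
  rw [h1]
  group

theorem tau_tmul (x : R) (p : X) : tau u T X (x ⊗ₜ[ℤ] p) =
    ∑ g ∈ T, (x * u g⁻¹) ⊗ₜ[ℤ] (MonoidAlgebra.single g (1 : ℤ) • p) := by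
  unfold tau
  rw [AddMonoidHom.finsetSum_apply]
  rfl

theorem tau_smul (r : R) (t : R ⊗[ℤ] X) : tau u T X (r • t) = r • tau u T X t := by
  induction t using TensorProduct.induction_on with
  | zero => rw [smul_zero, map_zero, smul_zero]
  | tmul x p =>
    rw [TensorProduct.smul_tmul', smul_eq_mul, tau_tmul, tau_tmul, Finset.smul_sum]
    refine Finset.sum_congr rfl fun g _ => ?_
    rw [TensorProduct.smul_tmul', smul_eq_mul, mul_assoc]
  | add a b ha hb => rw [smul_add, map_add, ha, hb, map_add, smul_add]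

theorem tau_tm {Y : Type} [AddCommGroup Y] [Module (MonoidAlgebra ℤ K) Y] (f : X →ₗ[MonoidAlgebra ℤ K] Y)
    (t : R ⊗[ℤ] X) : tau u T Y (tm f.toAddMonoidHom t) = tm f.toAddMonoidHom (tau u T X t) := by
  induction t using TensorProduct.induction_on with
  | zero => rw [map_zero, map_zero, map_zero, map_zero]
  | tmul x p =>
    have h1 : ∀ (x : R) (p : X), tm f.toAddMonoidHom (x ⊗ₜ[ℤ] p) = x ⊗ₜ[ℤ] f p := fun _ _ => rfl
    rw [h1, tau_tmul, tau_tmul, map_sum]
    refine Finset.sum_congr rfl fun g _ => ?_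
    rw [h1, map_smul]
  | add a b ha hb => rw [map_add, map_add, ha, hb, map_add, map_add]

/-- the transfer respects the relations -/
theorem tau_rel (hi : Function.Injective i) (rep : K → K) (kk : K → K₁) (h1 : ∀ g, i (kk g) * rep g = g)
    (h2 : ∀ k g, rep (i k * g) = rep g) (hT : ∀ g, g ∈ T ↔ rep g = g) (t : R ⊗[ℤ] X) (ht : t ∈ bcR u X) :
    tau u T X t ∈ bcS u i X := by
  unfold bcR at ht
  induction ht using Submodule.span_induction with
  | zero => rw [map_zero]; exact zero_mem _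
  | add a b _ _ ha hb => rw [map_add]; exact add_mem ha hb
  | smul c a _ ha => rw [tau_smul]; exact Submodule.smul_mem _ c ha
  | mem z hz =>
    obtain ⟨x, k, p, rfl⟩ := hz
    rw [map_sub, tau_tmul, tau_tmul]
    have hrr : ∀ g, rep (rep g) = rep g := fun g => by
      have := h2 (kk g) (rep g)
      rw [h1] at this
      exact this.symm
    -- the bijection of the representatives
    have hb : ∑ g ∈ T, (x * u k * u g⁻¹) ⊗ₜ[ℤ] (MonoidAlgebra.single g (1 : ℤ) • p) =
        ∑ g ∈ T, (x * u k * u (rep (g * k))⁻¹) ⊗ₜ[ℤ] (MonoidAlgebra.single (rep (g * k)) (1 : ℤ) • p) := by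
      symm
      refine Finset.sum_bij (fun g _ => rep (g * k)) (fun g _ => (hT _).2 (hrr _)) ?_ ?_ (fun g _ => rfl)
      · intro g hg g' hg' he
        have e1 := h1 (g * k)
        have e2 := h1 (g' * k)
        rw [← he] at e2
        have e3 : g = i (kk (g * k) * (kk (g' * k))⁻¹) * g' := by
          rw [map_mul, map_inv]
          exact grp_aux _ _ _ _ _ _ e1 e2
        have e6 := h2 (kk (g * k) * (kk (g' * k))⁻¹) g'
        rw [← e3, (hT g).1 hg, (hT g').1 hg'] at e6
        exact e6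
      · intro g hg
        refine ⟨rep (g * k⁻¹), (hT _).2 (hrr _), ?_⟩
        have e1 := h1 (g * k⁻¹)
        have e2 : rep (g * k⁻¹) * k = i (kk (g * k⁻¹))⁻¹ * g := by
          rw [map_inv]
          exact grp_aux2 _ _ _ _ e1
        rw [e2, h2]
        exact (hT g).1 hg
    rw [hb, ← Finset.sum_sub_distrib]
    refine Submodule.sum_mem _ fun g hg => ?_
    rw [bcS_eq]
    refine Submodule.subset_span ⟨x * u g⁻¹, kk (g * k), MonoidAlgebra.single (rep (g * k)) (1 : ℤ) • p, ?_⟩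
    have e1 := h1 (g * k)
    have e2 : x * u k * u (rep (g * k))⁻¹ = x * u g⁻¹ * u (i (kk (g * k))) := by
      rw [mul_assoc, mul_assoc, ← map_mul, ← map_mul]
      congr 2
      have e3 : i (kk (g * k)) = g * k * (rep (g * k))⁻¹ := by
        rw [eq_mul_inv_iff_mul_eq]
        exact e1
      rw [e3]
      group
    have e4 : MonoidAlgebra.single (i (kk (g * k))) (1 : ℤ) • MonoidAlgebra.single (rep (g * k)) (1 : ℤ) • p =
        MonoidAlgebra.single g (1 : ℤ) • MonoidAlgebra.single k (1 : ℤ) • p := by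
      rw [smul_smul, smul_smul, MonoidAlgebra.single_mul_single, MonoidAlgebra.single_mul_single, e1]
    rw [e2, e4]

/-- the transfer followed by the projection -/
theorem tau_proj (t : R ⊗[ℤ] X) : tau u T X t - (T.card : R) • t ∈ bcR u X := by
  induction t using TensorProduct.induction_on with
  | zero => rw [map_zero, smul_zero, sub_zero]; exact zero_mem _
  | add a b ha hb =>
    have : tau u T X (a + b) - (T.card : R) • (a + b) =
        (tau u T X a - (T.card : R) • a) + (tau u T X b - (T.card : R) • b) := by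
      rw [map_add, smul_add]
      abel
    rw [this]
    exact add_mem ha hb
  | tmul x p =>
    have h1 : (T.card : R) • (x ⊗ₜ[ℤ] p) = ∑ _g ∈ T, (x ⊗ₜ[ℤ] p : R ⊗[ℤ] X) := by
      rw [Finset.sum_const, Nat.cast_smul_eq_nsmul]
    rw [h1, tau_tmul, ← Finset.sum_sub_distrib]
    refine Submodule.sum_mem _ fun g _ => ?_
    refine (Submodule.neg_mem_iff _).1 ?_
    rw [neg_sub]
    refine Submodule.subset_span ⟨x * u g⁻¹, g, p, ?_⟩
    rw [mul_assoc, ← map_mul, inv_mul_cancel, map_one, mul_one]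

end transfer

/-- The transfer. -/
theorem hp_transfer {K₁ K : Type} [Group K₁] [Group K] {R : Type} [Ring R] (i : K₁ →* K)
    (hi : Function.Injective i) (u : K →* R) (hfin : i.range.FiniteIndex) (n : ℕ) (P : R → Prop)
    (H : HP (u.comp i) n P) : ∃ m : ℕ, 0 < m ∧ HP u n fun s => ∃ s₀, P s₀ ∧ s = s₀ * (m : R) := by
  classical
  obtain ⟨rep, kk, h1, h2, -⟩ := exists_rep i hi
  have hrr : ∀ g, rep (rep g) = rep g := fun g => by
    have := h2 (kk g) (rep g)
    rw [h1] at this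
    exact this.symm
  have hf : {g | rep g = g}.Finite := by
    have h3 : Finite (Quotient (QuotientGroup.rightRel i.range)) :=
      Finite.of_equiv _ (QuotientGroup.quotientRightRelEquivQuotientLeftRel i.range).symm
    refine Set.Finite.of_injOn (f := fun g => (Quotient.mk (QuotientGroup.rightRel i.range) g)) (t := Set.univ)
      (fun _ _ => Set.mem_univ _) ?_ Set.finite_univ
    intro g hg g' hg' he
    have h4 := Quotient.exact he
    have h5 : g' * g⁻¹ ∈ i.range := QuotientGroup.rightRel_apply.mp h4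
    obtain ⟨k, hk⟩ := h5
    have h6 : g' = i k * g := by rw [hk]; group
    have h7 := h2 k g
    rw [← h6] at h7
    have a1 : rep g = g := hg
    have a2 : rep g' = g' := hg'
    rw [← a1, ← a2, h7]
  obtain ⟨T, hT⟩ : ∃ T : Finset K, ∀ g, g ∈ T ↔ rep g = g := ⟨hf.toFinset, fun g => by
    rw [Set.Finite.mem_toFinset]; rfl⟩
  refine ⟨T.card, Finset.card_pos.2 ⟨rep 1, (hT _).2 (hrr 1)⟩, ?_⟩
  obtain ⟨E⟩ := exists_eres K
  rw [hp_iff (E.res i hi), tors_res] at H
  rw [hp_iff E]
  intro z hz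
  obtain ⟨t, rfl⟩ := Submodule.Quotient.mk_surjective _ z
  rw [bcM_tm, Submodule.Quotient.mk_eq_zero] at hz
  obtain ⟨s, hs, y, hy⟩ := H (tau u T (E.X (n + 1)) t) (by
    rw [← tau_tm]
    exact tau_rel i u T (E.X n) hi rep kk h1 h2 hT _ hz)
  refine ⟨s * (T.card : R), ⟨s, hs, rfl⟩, Submodule.Quotient.mk y, ?_⟩
  rw [bcM_tm, ← Submodule.Quotient.mk_smul, Submodule.Quotient.eq]
  have h3 := bcS_le u i _ hy
  have h4 := Submodule.smul_mem _ s (tau_proj u T (E.X (n + 1)) t)
  have h5 : tm (E.d (n + 1)).toAddMonoidHom y - (s * (T.card : R)) • t =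
      (tm (E.d (n + 1)).toAddMonoidHom y - s • tau u T (E.X (n + 1)) t) +
        s • (tau u T (E.X (n + 1)) t - (T.card : R) • t) := by
    rw [smul_sub, mul_smul]
    abel
  rw [h5]
  exact add_mem h3 h4

end Pool.Agent.H15.CC
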