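import Pool.Agent.H15.CCF.T1
import Pool.Agent.H15.L.N496_CV_P_CON
import Pool.Agent.H15.L.N496_CV_P_LNK
import Pool.Agent.H15.L.N496_CV_P_SUS
import Pool.Agent.H15.L.N496_CV_P_GDV
import Pool.Agent.H15.L.N496_CV_P_GDD
import Pool.Agent.H15.L.N496_CV_P_INJ
import Pool.Agent.H15.L.N496_CV_P_FINP
import Pool.Agent.H15.L.N496_CV_P_FREEP
import Pool.Agent.H15.L.N496_CV_Ind
import Pool.Agent.H7.L.W907_SM_LV

/-!
# The deduction rules for the homology of all subgroups, and their soundness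
-/

set_option autoImplicit false
set_option linter.unusedSectionVars false

noncomputable section

namespace Pool.Agent.H15.CC

open Pool.Agent.W907.SG Pool.Agent.W461.SGN Pool.Agent.Helper655.VN Pool.Agent.RK Pool.Agent.N496.CV
open Pool.Agent.W907.SM (LV)

/-! ### Mayer-Vietoris -/

section MV

variable {V : Type} [Fintype V] [LinearOrder V] {G : SimpleGraph V} {R : Type} [AddCommGroup R]
  {M : (W G → R) → Prop}

theorem ch_neg (hM : C722.Lin M) {C : Set V} {i : ℕ} {c : Finset V → W G → R} (hc : IsCh G C M i c) :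
    IsCh G C M i (-c) where
  supp T hT := by rw [Pi.neg_apply, hc.supp T hT, neg_zero]
  mem T := hM.neg _ (hc.mem T)
  anti T t ht w := by
    show -(c T _) = -(-(c T w))
    rw [hc.anti T t ht]

theorem bdf_neg' (c : Finset V → W G → R) : bdf G (-c) = - bdf G c := by
  funext T w
  show ∑ v ∈ Tᶜ, sg v T • (-(c (insert v T) w)) = -∑ v ∈ Tᶜ, sg v T • c (insert v T) w
  rw [← Finset.sum_neg_distrib]
  exact Finset.sum_congr rfl fun v _ => smul_neg _ _

/-- a chain on `A ∪ B` splits -/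
theorem split (hM : C722.Lin M) {A B : Set V} (hno : ∀ a ∈ A, a ∉ B → ∀ b ∈ B, b ∉ A → ¬ G.Adj a b) {i : ℕ}
    {c : Finset V → W G → R} (hc : IsCh G (A ∪ B) M i c) :
    ∃ a b, IsCh G A M i a ∧ IsCh G B M i b ∧ a + b = c := by
  classical
  refine ⟨fun T => if (T : Set V) ⊆ A then c T else 0, fun T => if (T : Set V) ⊆ A then 0 else c T, ?_, ?_, ?_⟩
  · refine ⟨fun T hT => ?_, fun T => ?_, fun T t ht w => ?_⟩
    · split_ifs with h
      · exact hc.supp T fun h1 => hT ⟨h1.1, h, h1.2.2⟩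
      · rfl
    · split_ifs with h
      · exact hc.mem T
      · exact hM.zero
    · split_ifs with h
      · exact hc.anti T t ht w
      · simp
  · refine ⟨fun T hT => ?_, fun T => ?_, fun T t ht w => ?_⟩
    · split_ifs with h
      · rfl
      · refine hc.supp T fun h1 => hT ⟨h1.1, fun x hx => ?_, h1.2.2⟩
        obtain ⟨y, hy, hyA⟩ := Set.not_subset.1 h
        by_contra hxB
        have hxA : x ∈ A := (h1.2.1 hx).resolve_right hxB
        have hyB : y ∈ B := (h1.2.1 hy).resolve_left hyA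
        exact hno x hxA hxB y hyB hyA (h1.1 hx hy fun e => hyA (e ▸ hxA))
    · split_ifs with h
      · exact hM.zero
      · exact hc.mem T
    · split_ifs with h
      · simp
      · exact hc.anti T t ht w
  · funext T
    rw [Pi.add_apply]
    split_ifs
    · rw [add_zero]
    · rw [zero_add]

theorem ch_inter {A B : Set V} {i : ℕ} {c : Finset V → W G → R} (hA : IsCh G A M i c) (hB : IsCh G B M i c) :
    IsCh G (A ∩ B) M i c where
  supp T hT := by
    by_cases h : G.IsClique (T : Set V) ∧ (T : Set V) ⊆ A ∧ T.card = i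
    · exact hB.supp T fun h1 => hT ⟨h.1, Set.subset_inter h.2.1 h1.2.1, h.2.2⟩
    · exact hA.supp T h
  mem := hA.mem
  anti := hA.anti

theorem ch_sub_set {A B : Set V} (h : A ⊆ B) {i : ℕ} {c : Finset V → W G → R} (hA : IsCh G A M i c) :
    IsCh G B M i c where
  supp T hT := hA.supp T fun h1 => hT ⟨h1.1, h1.2.1.trans h, h1.2.2⟩
  mem := hA.mem
  anti := hA.anti

theorem mv_glue (hM : C722.Lin M) {A B : Set V} (hno : ∀ a ∈ A, a ∉ B → ∀ b ∈ B, b ∉ A → ¬ G.Adj a b) {i : ℕ}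
    (hA : Hv G A M (i + 1)) (hB : Hv G B M (i + 1)) (hAB : Hv G (A ∩ B) M i) : Hv G (A ∪ B) M (i + 1) := by
  intro c hc hb
  obtain ⟨a, b, ha, hb', rfl⟩ := split hM hno hc
  rw [C722.bdf_add] at hb
  have h1 : bdf G a = bdf G (-b) := by
    rw [bdf_neg']
    exact eq_neg_of_add_eq_zero_left hb
  have h2 : IsCh G (A ∩ B) M i (bdf G a) := ch_inter (C722.ch_bdf hM ha) (by
    rw [h1]
    exact C722.ch_bdf hM (ch_neg hM hb'))
  obtain ⟨e, he, hbe⟩ := hAB _ h2 (C722.bdf_bdf G a)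
  obtain ⟨x, hx, hbx⟩ := hA (a - e) (C722.ch_sub hM ha (ch_sub_set Set.inter_subset_left he)) (by
    rw [C722.bdf_sub, hbe, sub_self])
  obtain ⟨y, hy, hby⟩ := hB (b + e) (C722.ch_add hM hb' (ch_sub_set Set.inter_subset_right he)) (by
    rw [C722.bdf_add, hbe, h1, bdf_neg']
    abel)
  refine ⟨x + y, C722.ch_add hM (ch_sub_set Set.subset_union_left hx) (ch_sub_set Set.subset_union_right hy), ?_⟩
  rw [C722.bdf_add, hbx, hby]
  abel

theorem mv_part (hM : C722.Lin M) {A B : Set V} (hno : ∀ a ∈ A, a ∉ B → ∀ b ∈ B, b ∉ A → ¬ G.Adj a b) {i : ℕ}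
    (hU : Hv G (A ∪ B) M i) (hAB : Hv G (A ∩ B) M i) : Hv G A M i := by
  intro c hc hb
  obtain ⟨e, he, hbe⟩ := hU c (ch_sub_set Set.subset_union_left hc) hb
  obtain ⟨a, b, ha, hb', rfl⟩ := split hM hno he
  rw [C722.bdf_add] at hbe
  have h1 : bdf G b = c - bdf G a := by rw [← hbe]; abel
  have h2 : IsCh G (A ∩ B) M i (bdf G b) := ch_inter (by
    rw [h1]
    exact C722.ch_sub hM hc (C722.ch_bdf hM ha)) (C722.ch_bdf hM hb')
  obtain ⟨f, hf, hbf⟩ := hAB _ h2 (C722.bdf_bdf G b)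
  refine ⟨a + f, C722.ch_add hM ha (ch_sub_set Set.inter_subset_left hf), ?_⟩
  rw [C722.bdf_add, hbf, hbe]

theorem mv_inter (hM : C722.Lin M) {A B : Set V} (hno : ∀ a ∈ A, a ∉ B → ∀ b ∈ B, b ∉ A → ¬ G.Adj a b) {i : ℕ}
    (hU : Hv G (A ∪ B) M (i + 1)) (hA : Hv G A M i) (hB : Hv G B M i) : Hv G (A ∩ B) M i := by
  intro c hc hb
  obtain ⟨a, ha, hba⟩ := hA c (ch_sub_set Set.inter_subset_left hc) hb
  obtain ⟨b, hb', hbb⟩ := hB c (ch_sub_set Set.inter_subset_right hc) hb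
  obtain ⟨e, he, hbe⟩ := hU (a - b) (C722.ch_sub hM (ch_sub_set Set.subset_union_left ha)
    (ch_sub_set Set.subset_union_right hb')) (by rw [C722.bdf_sub, hba, hbb, sub_self])
  obtain ⟨x, y, hx, hy, rfl⟩ := split hM hno he
  rw [C722.bdf_add] at hbe
  have h1 : a - bdf G x = b + bdf G y := by
    have h2 : bdf G x + bdf G y = a - b := hbe
    have h3 : a = bdf G x + bdf G y + b := by rw [h2]; abel
    rw [h3]
    abel
  refine ⟨a - bdf G x, ch_inter (C722.ch_sub hM ha (C722.ch_bdf hM hx)) (by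
    rw [h1]
    exact C722.ch_add hM hb' (C722.ch_bdf hM hy)), ?_⟩
  rw [C722.bdf_sub, hba, C722.bdf_bdf, sub_zero]

end MV

/-! ### The rules -/

/-- `Van G i L C`, for sets `C ⊆ L` of vertices of the graph `G`: the `i`-th homology of `C` can be shown to vanish for
all subgroups, relative to `L`, by the following rules. -/
inductive Van {V : Type} (G : SimpleGraph V) : ℕ → Set V → Set V → Prop
  /-- the full subcomplex on `C` has dimension at most `i - 1` and `b_i^(2)` of its Coxeter group is zero -/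
  | top {i : ℕ} {L C : Set V} : C ⊆ L → (∀ T : Finset V, G.IsClique (T : Set V) → (T : Set V) ⊆ C → T.card ≤ i) →
      LV (G.induce C) i → Van G i L C
  /-- cones -/
  | cone {i : ℕ} {L C : Set V} (s : V) : s ∈ L → C ⊆ L → (∀ x ∈ C, G.Adj s x) →
      Van G i (L ∩ G.neighborSet s) C → Van G i L (insert s C)
  /-- suspensions -/
  | susp {i : ℕ} {L C : Set V} (s t : V) : s ∈ L → t ∈ L → s ≠ t → ¬ G.Adj s t → C ⊆ L →
      (∀ x ∈ C, G.Adj s x ∧ G.Adj t x) → Van G i (L ∩ G.neighborSet s ∩ G.neighborSet t) C →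
      Van G i L (insert s (insert t C))
  /-- add a vertex -/
  | vert {i : ℕ} {L C : Set V} (v : V) : v ∈ L → C ⊆ L → v ∉ C → Van G (i + 1) L C →
      Van G i (L ∩ G.neighborSet v) (C ∩ G.neighborSet v) → Van G (i + 1) L (insert v C)
  /-- Mayer-Vietoris, the union -/
  | union {i : ℕ} {L A B : Set V} : A ⊆ L → B ⊆ L → (∀ a ∈ A, a ∉ B → ∀ b ∈ B, b ∉ A → ¬ G.Adj a b) →
      Van G (i + 1) L A → Van G (i + 1) L B → Van G i L (A ∩ B) → Van G (i + 1) L (A ∪ B)
  /-- Mayer-Vietoris, a part -/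
  | part {i : ℕ} {L A B : Set V} : A ⊆ L → B ⊆ L → (∀ a ∈ A, a ∉ B → ∀ b ∈ B, b ∉ A → ¬ G.Adj a b) →
      Van G i L (A ∪ B) → Van G i L (A ∩ B) → Van G i L A
  /-- Mayer-Vietoris, the intersection -/
  | inter {i : ℕ} {L A B : Set V} : A ⊆ L → B ⊆ L → (∀ a ∈ A, a ∉ B → ∀ b ∈ B, b ∉ A → ¬ G.Adj a b) →
      Van G (i + 1) L (A ∪ B) → Van G i L A → Van G i L B → Van G i L (A ∩ B)
  /-- a larger set `L` -/
  | mono {i : ℕ} {L L' C : Set V} : L ⊆ L' → Van G i L C → Van G i L' C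

section sound

variable {V : Type} [Fintype V] [LinearOrder V] {G : SimpleGraph V}

/-- the rules are sound -/
theorem sound {i : ℕ} {L C : Set V} (h : Van G i L C) (K : Subgroup (W G)) (U : Type) [Ring U] (u : K →* U)
    (hu : Adm u) (hR : Rg K u) : ∀ (Y : Set (W G)) (E : Subgroup (W G × ℤˣ)), Good K L Y E →
      Hv G C (InM K u Y E) i := by
  induction h with
  | top hCL hd hv =>
    intro Y E hG c hc hb
    have h0 := top' V G K U u _ _ Y E _ hu hG hCL (hv _ _) hd c hc hb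
    subst h0
    exact ⟨0, isCh_zero K u Y E _ _, bdf_zero⟩
  | @cone i L C s hs hC hadj _ ih =>
    intro Y E hG
    exact con V G K U u L C Y E s i hR hG hs hC hadj (ih Y (addv E s 1)
      (gdv PSPEC.spec V G K L (L ∩ G.neighborSet s) Y E s 1 hR.tf hG hs Set.inter_subset_left fun x hx => hx.2))
  | @susp i L C s t hs ht hst hn hC hadj _ ih =>
    intro Y E hG
    exact sus (inj PSPEC.spec) (finp PSPEC.spec) (freep PSPEC.spec) V G K U u L C Y E s t i hR hG hs ht hst hn hC hadj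
      (ih _ (addD E s t) (gdd V G K L (L ∩ G.neighborSet s ∩ G.neighborSet t) Y E s t hG hs ht
        (fun x hx => hx.1.1) fun x hx => ⟨hx.1.2, hx.2⟩))
  | @vert i L C v hv hC hvC _ _ ih1 ih2 =>
    intro Y E hG
    exact lnk V G K U u L C Y E v i hR hG hv hC hvC (ih1 Y E hG) (ih2 Y (addv E v (-1))
      (gdv PSPEC.spec V G K L (L ∩ G.neighborSet v) Y E v (-1) hR.tf hG hv Set.inter_subset_left fun x hx => hx.2))
  | union hA hB hno _ _ _ ih1 ih2 ih3 =>
    intro Y E hG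
    exact mv_glue C722.lin_InM hno (ih1 Y E hG) (ih2 Y E hG) (ih3 Y E hG)
  | part hA hB hno _ _ ih1 ih2 =>
    intro Y E hG
    exact mv_part C722.lin_InM hno (ih1 Y E hG) (ih2 Y E hG)
  | inter hA hB hno _ _ _ ih1 ih2 ih3 =>
    intro Y E hG
    exact mv_inter C722.lin_InM hno (ih1 Y E hG) (ih2 Y E hG) (ih3 Y E hG)
  | mono hL _ ih =>
    intro Y E hG
    exact ih Y E (hG.mono hL)

end sound

end Pool.Agent.H15.CC
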