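import Pool.Agent.H15.CCF.F5
import Pool.Agent.H15.CCF.T2
import Pool.Agent.H15.CCF.R2
import Pool.Agent.H7.L.N496_CV_P_TF

/-!
# All subgroups of right-angled Coxeter groups of arbitrary rank
-/

set_option autoImplicit false
set_option linter.unusedSectionVars false

noncomputable section

namespace Pool.Agent.H15.CC

open CategoryTheory Pool.Agent.W907.SG Pool.Agent.W461.SGN Pool.Agent.N496.CV Pool.Agent.N496.LT V7N
open Pool.Agent.Helper655.VN Pool.Agent.RK
open scoped TensorProduct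

attribute [local instance] VN831.bcFunctor_additive V7N.bcF_additive

theorem rg_of {K : Type} [Group K] {U : Type} [Ring U] {Kb : Type} [Group Kb] (j : K →* Kb)
    (hj : Function.Injective j) (ι : NG Kb →+* U) (hL : Loc ι) (u : K →* U) (hu : ∀ h, u h = ι (canL (j h)))
    (htf : ∀ (k : K) (n : ℕ), 0 < n → k ^ n = 1 → k = 1) :
    IsUnit (2 : U) ∧ ∀ h : K, h ≠ 1 → IsUnit (1 - u h) := by
  constructor
  · have h1 : IsUnit ((algebraMap ℂ (NG Kb)) 2) :=
      (isUnit_iff_ne_zero.2 (two_ne_zero : (2 : ℂ) ≠ 0)).map (algebraMap ℂ (NG Kb))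
    have h2 : (algebraMap ℂ (NG Kb)) 2 = 2 := map_ofNat _ 2
    rw [h2] at h1
    have h3 := h1.map ι
    rwa [map_ofNat] at h3
  · intro h hh
    have h1 : ι (1 - canL (j h)) = 1 - u h := by rw [map_sub, map_one, hu]
    rw [← h1]
    refine hL.unit _ (P_RU_nz (j h) ?_)
    rw [injective_pow_iff_not_isOfFinOrder, isOfFinOrder_iff_pow_eq_one]
    rintro ⟨n, hn, hn1⟩
    refine hh (htf h n hn (hj ?_))
    rw [map_pow, map_one, hn1]

/-- Torsion free subgroups of finite rank, with coefficients in the von Neumann algebra of a larger group. -/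
theorem hp_of_hv {V : Type} [Fintype V] [LinearOrder V] {G : SimpleGraph V} (K : Subgroup (W G))
    (hK : ∀ k ∈ K, ∀ n : ℕ, 0 < n → k ^ n = 1 → k = 1) (n : ℕ)
    {Kb : Type} [Group Kb] (j : K →* Kb) (hj : Function.Injective j)
    (hv : ∀ (U : Type) [Ring U] (ι : NG Kb →+* U) (u : K →* U), Loc ι → (∀ h, u h = ι (canL (j h))) → Rg K u →
      Hv G Set.univ (InM K u Set.univ ⊥) (n + 1)) :
    HP ((canL : Kb →* NG Kb).comp j) n Nz := by
  classical
  obtain ⟨c₀, hc₀⟩ : ∃ c₀ : K →* NG Kb, c₀ = (canL : Kb →* NG Kb).comp j := ⟨_, rfl⟩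
  rw [← hc₀]
  have hcj : ∀ h, c₀ h = canL (j h) := fun h => by rw [hc₀]; rfl
  refine hom_prop K c₀ hK n Nz fun c hc hb => ?_
  obtain ⟨U, hU, ι, hloc⟩ := Pool.Agent.RK.LocEx.loc_exists (vn_NG (G := Kb))
  have htf : ∀ (k : K) (n : ℕ), 0 < n → k ^ n = 1 → k = 1 := by
    intro k m hm hk
    exact Subtype.ext (hK k.1 k.2 m hm (by simpa using congrArg Subtype.val hk))
  obtain ⟨u, hu⟩ : ∃ u : K →* U, ∀ h, u h = ι (canL (j h)) :=
    ⟨((ι : NG Kb →* U).comp canL).comp j, fun h => rfl⟩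
  obtain ⟨h2, hinv⟩ := rg_of j hj ι hloc u hu htf
  have hRg : Rg K u := ⟨htf, h2, hinv⟩
  have hH : Hv G Set.univ (InM K u Set.univ ⊥) (n + 1) := hv U ι u hloc hu hRg
  have hc' : IsCh G Set.univ (InM K u Set.univ ⊥) (n + 1) (fun T w => ι (c T w)) := by
    refine ⟨fun T hT => ?_, fun T => ⟨fun w _ => trivial, fun p hp w => ?_, fun h w => ?_, ?_⟩, fun T t ht w => ?_⟩
    · funext w
      rw [hc.supp T hT]
      exact map_zero ι
    · rw [(hc.mem T).eqE p hp, map_zsmul]
    · rw [(hc.mem T).eqK h w, map_mul, hu, hcj]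
    · obtain ⟨S, hS⟩ := (hc.mem T).fin
      exact ⟨S, fun w hw => hS w fun h0 => hw (by rw [h0, map_zero])⟩
    · rw [hc.anti T t ht, map_neg]
  have hb' : bdf G (fun T w => ι (c T w)) = 0 := by
    funext T w
    have h5 := congrFun (congrFun hb T) w
    have h6 : bdf G (fun T w => ι (c T w)) T w = ι (bdf G c T w) := by
      unfold bdf
      rw [map_sum]
      exact Finset.sum_congr rfl fun v _ => (map_zsmul ι _ _).symm
    rw [h6, h5]
    exact map_zero ι
  obtain ⟨e2, he2, hbe⟩ := hH _ hc' hb'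
  -- clear the denominators
  have hfin := fun T : Finset V => (he2.mem T).fin
  choose S hS using hfin
  obtain ⟨s, hs, hx⟩ := common_denominator hloc (fun a b ha hb => Pool.Agent.RK.Nz.nz_mul a b ha hb)
    ((Finset.univ : Finset (Finset V)).sigma fun T => S T) (fun a => e2 a.1 a.2)
  have hall : ∀ T w, ∃ x : NG Kb, ι s * e2 T w = ι x := by
    intro T w
    by_cases h0 : e2 T w = 0
    · exact ⟨0, by rw [h0, mul_zero, map_zero]⟩
    · obtain ⟨h, x, hxS, p, hp, hgx⟩ := hS T w h0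
      rw [Subgroup.mem_bot] at hp
      have hgx' : w = h * x := by rw [hgx, hp]; simp
      obtain ⟨y, hy⟩ := hx ⟨T, x⟩ (Finset.mem_sigma.2 ⟨Finset.mem_univ _, hxS⟩)
      refine ⟨y * canL (j h⁻¹), ?_⟩
      rw [hgx', (he2.mem T).eqK h x, ← mul_assoc, hy, map_mul, hu]
  choose e he using hall
  have hzero : ∀ T w, e2 T w = 0 → e T w = 0 := by
    intro T w h0
    apply hloc.inj
    rw [← he, h0, mul_zero, map_zero]
  refine ⟨s, hs, e, ⟨fun T hT => ?_, fun T => ⟨fun w _ => trivial, fun p hp w => ?_, fun h w => ?_, ?_⟩,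
    fun T t ht w => ?_⟩, ?_⟩
  · funext w
    exact hzero T w (by rw [he2.supp T hT]; rfl)
  · rw [Subgroup.mem_bot] at hp
    rw [hp]
    simp
  · apply hloc.inj
    rw [← he, (he2.mem T).eqK h w, ← mul_assoc, he, map_mul, hu, hcj]
  · exact ⟨S T, fun w hw => hS T w fun h0 => hw (hzero T w h0)⟩
  · apply hloc.inj
    rw [← he, he2.anti T t ht, mul_neg, he, map_neg]
  · funext T w
    apply hloc.inj
    have h6 : ι (bdf G e T w) = ι s * bdf G e2 T w := by
      unfold bdf
      rw [map_sum, Finset.mul_sum]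
      refine Finset.sum_congr rfl fun v _ => ?_
      rw [map_zsmul, ← he, mul_smul_comm]
    rw [h6, hbe]
    exact (map_mul ι _ _).symm

theorem hp_van {V : Type} [Fintype V] [LinearOrder V] {G : SimpleGraph V} (K : Subgroup (W G))
    (hK : ∀ k ∈ K, ∀ n : ℕ, 0 < n → k ^ n = 1 → k = 1) (n : ℕ) (hv : Van G (n + 1) Set.univ Set.univ)
    {Kb : Type} [Group Kb] (j : K →* Kb) (hj : Function.Injective j) :
    HP ((canL : Kb →* NG Kb).comp j) n Nz :=
  hp_of_hv K hK n j hj fun U _ ι u hloc hu hRg =>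
    sound hv K U u ⟨Kb, inferInstance, j, ι, hj, hloc, hu⟩ hRg Set.univ ⊥ (good_univ K)

/-- every element of `W G` is in the special subgroup of a finite set -/
theorem exists_fin {V : Type} (G : SimpleGraph V) (w : W G) :
    ∃ A : Set V, A.Finite ∧ w ∈ Subgroup.closure ((cox G).simple '' A) := by
  have h0 : (⊤ : Subgroup (W G)) = Subgroup.closure (Set.range (cox G).simple) :=
    ((cox G).toCoxeterSystem.subgroup_closure_range_simple).symm
  have h1 : w ∈ Subgroup.closure (Set.range (cox G).simple) := by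
    rw [← h0]
    trivial
  induction h1 using Subgroup.closure_induction with
  | mem x hx =>
    obtain ⟨v, rfl⟩ := hx
    exact ⟨{v}, Set.finite_singleton v, Subgroup.subset_closure ⟨v, rfl, rfl⟩⟩
  | one => exact ⟨∅, Set.finite_empty, one_mem _⟩
  | mul x y _ _ hx hy =>
    obtain ⟨A, hA, h1⟩ := hx
    obtain ⟨B, hB, h2⟩ := hy
    exact ⟨A ∪ B, hA.union hB, mul_mem (Subgroup.closure_mono (Set.image_mono Set.subset_union_left) h1)
      (Subgroup.closure_mono (Set.image_mono Set.subset_union_right) h2)⟩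
  | inv x _ hx =>
    obtain ⟨A, hA, h1⟩ := hx
    exact ⟨A, hA, inv_mem h1⟩

end Pool.Agent.H15.CC
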