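import Pool.Agent.H15.CCF.M1

/-!
# Full subcomplexes, groups which contain subgroups of finite index
-/

set_option autoImplicit false
set_option linter.unusedSectionVars false

noncomputable section

namespace Pool.Agent.H15.CC

open CategoryTheory Pool.Agent.W907.SG Pool.Agent.W461.SGN Pool.Agent.N496.CV Pool.Agent.N496.LT V7N
open Pool.Agent.Helper655.VN Pool.Agent.RK

section restr

variable {V : Type} [Fintype V] [LinearOrder V] {G : SimpleGraph V} {C : Set V} {R : Type} [Ring R]

/-- the inclusion of the vertices -/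
abbrev inC (C : Set V) : C ↪ V := Function.Embedding.subtype _

theorem inC_sub (T : Finset C) : ((T.map (inC C) : Finset V) : Set V) ⊆ C := by
  intro x hx
  rw [Finset.mem_coe, Finset.mem_map] at hx
  obtain ⟨y, -, rfl⟩ := hx
  exact y.2

theorem sg_inC (v : C) (T : Finset C) : sg (v : V) (T.map (inC C)) = sg v T := by
  unfold sg
  congr 1
  rw [Finset.filter_map, Finset.card_map]
  rfl

theorem exists_pre (T : Finset V) (hT : (T : Set V) ⊆ C) : ∃ T' : Finset C, T'.map (inC C) = T := by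
  classical
  refine ⟨T.subtype (· ∈ C), ?_⟩
  ext x
  rw [Finset.mem_map]
  constructor
  · rintro ⟨y, hy, rfl⟩
    exact Finset.mem_subtype.1 hy
  · intro hx
    exact ⟨⟨x, hT hx⟩, Finset.mem_subtype.2 hx, rfl⟩

variable [Fintype C]

/-- the boundary of a chain on `C` -/
theorem bdf_inC (c : Finset V → W G → R) (hc : ∀ T : Finset V, ¬ (T : Set V) ⊆ C → c T = 0) (T : Finset C) (w : W G) :
    bdf G c (T.map (inC C)) w = ∑ v ∈ Tᶜ, sg v T • c ((insert v T).map (inC C)) w := by
  unfold bdf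
  have h1 : ∀ v : C, sg (inC C v) (T.map (inC C)) • c (insert (inC C v) (T.map (inC C))) w =
      sg v T • c ((insert v T).map (inC C)) w := fun v => by
    rw [Finset.map_insert]
    exact congrArg (fun z : ℤ => z • c (insert (inC C v) (T.map (inC C))) w) (sg_inC v T)
  rw [← Finset.sum_congr rfl fun v _ => h1 v,
    ← Finset.sum_map Tᶜ (inC C) fun v => sg v (T.map (inC C)) • c (insert v (T.map (inC C))) w]
  symm
  refine Finset.sum_subset ?_ ?_
  · intro x hx
    rw [Finset.mem_map] at hx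
    obtain ⟨y, hy, rfl⟩ := hx
    rw [Finset.mem_compl, Finset.mem_map]
    rintro ⟨z, hz, hzy⟩
    rw [Finset.mem_compl] at hy
    exact hy ((inC C).injective hzy ▸ hz)
  · intro x hx hx2
    have hxC : x ∉ C := by
      intro hxC
      apply hx2
      rw [Finset.mem_map]
      refine ⟨⟨x, hxC⟩, ?_, rfl⟩
      rw [Finset.mem_compl] at hx ⊢
      exact fun h => hx (Finset.mem_map.2 ⟨_, h, rfl⟩)
    rw [hc _ fun h => hxC (h (by simp))]
    simp

theorem clique_inC (T : Finset C) : G.IsClique ((T.map (inC C) : Finset V) : Set V) ↔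
    (G.induce C).IsClique (T : Set C) := by
  constructor
  · intro h a ha b hb hab
    exact h (Finset.mem_coe.2 (Finset.mem_map.2 ⟨a, ha, rfl⟩)) (Finset.mem_coe.2 (Finset.mem_map.2 ⟨b, hb, rfl⟩))
      fun e => hab (Subtype.ext e)
  · intro h a ha b hb hab
    rw [Finset.mem_coe, Finset.mem_map] at ha hb
    obtain ⟨a', ha', rfl⟩ := ha
    obtain ⟨b', hb', rfl⟩ := hb
    exact h ha' hb' fun e => hab (by rw [e])

/-- the homology for the special subgroup of `C` -/
theorem hv_ind (f : W (G.induce C) →* W G) (hf : Function.Injective f)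
    (hfs : ∀ v : C, f ((cox (G.induce C)).simple v) = (cox G).simple v.1) (K : Subgroup (W (G.induce C)))
    (u : K →* R) (u₁ : K.map f →* R) (hu : ∀ (k : K) (h : f k ∈ K.map f), u₁ ⟨f k, h⟩ = u k) (i : ℕ)
    (hv : Hv G C (InM (K.map f) u₁ Set.univ ⊥) i) : Hv (G.induce C) Set.univ (InM K u Set.univ ⊥) i := by
  classical
  intro c hc hb
  -- the left inverse of `f`
  obtain ⟨g, hg⟩ : ∃ g : W G → W (G.induce C), ∀ x, g (f x) = x :=
    ⟨Function.invFun f, Function.leftInverse_invFun hf⟩
  -- the extension by zero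
  obtain ⟨c₁, hc₁⟩ : ∃ c₁ : Finset V → W G → R, (∀ (T : Finset C) x, c₁ (T.map (inC C)) (f x) = c T x) ∧
      (∀ T : Finset V, ¬ (T : Set V) ⊆ C → c₁ T = 0) ∧ ∀ T w, w ∉ f.range → c₁ T w = 0 := by
    refine ⟨fun T w => if (T : Set V) ⊆ C ∧ w ∈ f.range then c (T.subtype (· ∈ C)) (g w) else 0,
      fun T x => ?_, fun T hT => ?_, fun T w hw => ?_⟩
    · have h1 : (T.map (inC C)).subtype (· ∈ C) = T := by
        ext y
        rw [Finset.mem_subtype, Finset.mem_map]
        constructor
        · rintro ⟨z, hz, hzy⟩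
          exact (inC C).injective hzy ▸ hz
        · exact fun hy => ⟨y, hy, rfl⟩
      show (if _ ∧ _ then _ else _) = _
      rw [if_pos ⟨inC_sub T, ⟨x, rfl⟩⟩, h1, hg]
    · funext w
      exact if_neg fun h => hT h.1
    · exact if_neg fun h => hw h.2
  obtain ⟨hc1, hc2, hc3⟩ := hc₁
  have hKm : ∀ k : K, f k ∈ K.map f := fun k => ⟨k, k.2, rfl⟩
  have huinv : ∀ (k : K) (h : K.map f), (h : W G) = f k → u₁ h⁻¹ = u k⁻¹ := by
    intro k h hk
    have h1 : h⁻¹ = ⟨f ↑(k⁻¹), hKm k⁻¹⟩ := Subtype.ext (by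
      show (h : W G)⁻¹ = f ((k : W (G.induce C))⁻¹)
      rw [hk, map_inv])
    rw [h1, hu]
  have hch : IsCh G C (InM (K.map f) u₁ Set.univ ⊥) i c₁ := by
    refine ⟨fun T hT => ?_, fun T => ⟨fun w _ => trivial, fun p hp w => ?_, fun h w => ?_, ?_⟩, fun T t ht w => ?_⟩
    · by_cases hTC : (T : Set V) ⊆ C
      · obtain ⟨T', rfl⟩ := exists_pre T hTC
        funext w
        by_cases hw : w ∈ f.range
        · obtain ⟨x, rfl⟩ := hw
          rw [hc1, hc.supp T' fun h1 => hT ⟨(clique_inC T').2 h1.1, hTC, by rw [Finset.card_map]; exact h1.2.2⟩]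
          rfl
        · exact hc3 _ _ hw
      · exact hc2 T hTC
    · rw [Subgroup.mem_bot] at hp
      rw [hp]
      simp
    · obtain ⟨k, hk, hkh⟩ := h.2
      have hkh' : (h : W G) = f k := hkh.symm
      by_cases hTC : (T : Set V) ⊆ C
      · obtain ⟨T', rfl⟩ := exists_pre T hTC
        by_cases hw : w ∈ f.range
        · obtain ⟨x, rfl⟩ := hw
          rw [hkh', ← map_mul, hc1, hc1, huinv ⟨k, hk⟩ h hkh']
          exact (hc.mem T').eqK ⟨k, hk⟩ x
        · rw [hc3 _ _ hw, zero_mul]
          refine hc3 _ _ fun h2 => hw ?_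
          have h3 := mul_mem (inv_mem (⟨k, rfl⟩ : f k ∈ f.range)) h2
          rwa [hkh', inv_mul_cancel_left] at h3
      · rw [hc2 T hTC]
        simp
    · by_cases hTC : (T : Set V) ⊆ C
      · obtain ⟨T', rfl⟩ := exists_pre T hTC
        obtain ⟨S, hS⟩ := (hc.mem T').fin
        refine ⟨S.image f, fun w hw => ?_⟩
        have hwr : w ∈ f.range := by
          by_contra h
          exact hw (hc3 _ _ h)
        obtain ⟨x, rfl⟩ := hwr
        rw [hc1] at hw
        obtain ⟨h, s, hs, p, hp, hx⟩ := hS x hw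
        rw [Subgroup.mem_bot] at hp
        refine ⟨⟨f h, hKm h⟩, f s, Finset.mem_image_of_mem f hs, 1, Subgroup.one_mem _, ?_⟩
        rw [hx, hp]
        simp
      · exact ⟨∅, fun w hw => absurd (by rw [hc2 T hTC]; rfl) hw⟩
    · by_cases hTC : (T : Set V) ⊆ C
      · obtain ⟨T', rfl⟩ := exists_pre T hTC
        obtain ⟨t', ht', rfl⟩ := Finset.mem_map.1 ht
        have hs : f ((cox (G.induce C)).simple t') = (cox G).simple (inC C t') := hfs t'
        by_cases hw : w ∈ f.range
        · obtain ⟨x, rfl⟩ := hw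
          rw [← hs, ← map_mul, hc1, hc1]
          exact hc.anti T' t' ht' x
        · rw [hc3 _ _ hw, neg_zero]
          refine hc3 _ _ fun h2 => hw ?_
          rw [← hs] at h2
          have h3 := mul_mem h2 (inv_mem (⟨_, rfl⟩ : f ((cox (G.induce C)).simple t') ∈ f.range))
          rwa [mul_inv_cancel_right] at h3
      · rw [hc2 T hTC]
        simp
  have hbd : bdf G c₁ = 0 := by
    funext T w
    by_cases hTC : (T : Set V) ⊆ C
    · obtain ⟨T', rfl⟩ := exists_pre T hTC
      rw [bdf_inC c₁ hc2]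
      by_cases hw : w ∈ f.range
      · obtain ⟨x, rfl⟩ := hw
        have h1 := congrFun (congrFun hb T') x
        unfold bdf at h1
        rw [Finset.sum_congr rfl fun v _ => by rw [hc1]]
        exact h1
      · rw [Finset.sum_congr rfl fun v _ => by rw [hc3 _ _ hw, smul_zero]]
        simp
    · unfold bdf
      refine Finset.sum_eq_zero fun v _ => ?_
      rw [hc2 _ fun h => hTC (subset_trans (by simp) h)]
      simp
  obtain ⟨e₁, he, hbe⟩ := hv c₁ hch hbd
  have hes : ∀ T : Finset V, ¬ (T : Set V) ⊆ C → e₁ T = 0 := fun T hT => he.supp T fun h => hT h.2.1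
  refine ⟨fun T x => e₁ (T.map (inC C)) (f x), ⟨fun T hT => ?_, fun T => ⟨fun w _ => trivial, fun p hp w => ?_,
    fun h w => ?_, ?_⟩, fun T t ht w => ?_⟩, ?_⟩
  · funext x
    rw [he.supp (T.map (inC C)) fun h => hT ⟨(clique_inC T).1 h.1, Set.subset_univ _, by
      rw [← h.2.2, Finset.card_map]⟩]
    rfl
  · rw [Subgroup.mem_bot] at hp
    rw [hp]
    simp
  · have h1 := (he.mem (T.map (inC C))).eqK ⟨f h, hKm h⟩ (f w)
    rw [huinv h ⟨f h, hKm h⟩ rfl] at h1
    rw [map_mul]
    exact h1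
  · obtain ⟨S, hS⟩ := (he.mem (T.map (inC C))).fin
    refine ⟨S.image g, fun x hx => ?_⟩
    obtain ⟨h, s, hs, p, hp, hxe⟩ := hS _ hx
    rw [Subgroup.mem_bot] at hp
    obtain ⟨k, hk, hkh⟩ := h.2
    have hse : s = f (k⁻¹ * x) := by
      rw [map_mul, map_inv, hxe, hp, hkh]
      simp
    refine ⟨⟨k, hk⟩, g s, Finset.mem_image_of_mem g hs, 1, Subgroup.one_mem _, ?_⟩
    rw [hse, hg]
    simp
  · have hs : f ((cox (G.induce C)).simple t) = (cox G).simple (inC C t) := hfs t
    show e₁ (T.map (inC C)) (f (w * (cox (G.induce C)).simple t)) = - e₁ (T.map (inC C)) (f w)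
    rw [map_mul, hs]
    exact he.anti (T.map (inC C)) (inC C t) (Finset.mem_map_of_mem _ ht) (f w)
  · funext T x
    have h1 := congrFun (congrFun hbe (T.map (inC C))) (f x)
    rw [bdf_inC e₁ hes, hc1] at h1
    exact h1

end restr

/-- torsion free subgroups of special subgroups -/
theorem hp_vanC {V : Type} [Fintype V] [LinearOrder V] {G : SimpleGraph V} (C : Set V) [Fintype C]
    (K : Subgroup (W (G.induce C))) (hK : ∀ k ∈ K, ∀ n : ℕ, 0 < n → k ^ n = 1 → k = 1) (n : ℕ)
    (hv : Van G (n + 1) Set.univ C) {Kb : Type} [Group Kb] (j : K →* Kb) (hj : Function.Injective j) :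
    HP ((canL : Kb →* NG Kb).comp j) n Nz := by
  obtain ⟨f, hf, hfs⟩ := (PSPEC.spec V G).2.1 C
  obtain ⟨e, he⟩ : ∃ e : K ≃* K.map f, ∀ k, (e k : W G) = f k :=
    ⟨K.equivMapOfInjective f hf, fun k => Subgroup.coe_equivMapOfInjective_apply K f hf k⟩
  refine hp_of_hv K hK n j hj fun U _ ι u hloc hu hRg => ?_
  have hes : ∀ (k : K) (h : f k ∈ K.map f), e.symm ⟨f k, h⟩ = k := fun k h => by
    rw [MulEquiv.symm_apply_eq]
    exact Subtype.ext (he k).symm
  have hu1 : ∀ h : K.map f, (u.comp e.symm.toMonoidHom) h = ι (canL ((j.comp e.symm.toMonoidHom) h)) :=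
    fun h => hu _
  refine hv_ind f hf hfs K u (u.comp e.symm.toMonoidHom) (fun k h => congrArg u (hes k h)) (n + 1) ?_
  refine sound hv (K.map f) U _ ⟨Kb, inferInstance, j.comp e.symm.toMonoidHom, ι,
    hj.comp e.symm.injective, hloc, hu1⟩ ⟨fun k m hm hk => ?_, hRg.two, fun h hh => ?_⟩ Set.univ ⊥ (good_univ _)
  · have h1 : e.symm k = 1 := hRg.tf (e.symm k) m hm (by rw [← map_pow, hk, map_one])
    exact (MulEquiv.map_eq_one_iff e.symm).1 h1
  · exact hRg.inv (e.symm h) fun h1 => hh ((MulEquiv.map_eq_one_iff e.symm).1 h1)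

/-- `Γ` is locally and virtually a subgroup of special subgroups for which the vanishing in the degree `k` can be
shown. -/
def LocV (k : ℕ) (Γ : Type) [Group Γ] : Prop :=
  ∀ S : Finset Γ, ∃ F₁ : Subgroup (Subgroup.closure (S : Set Γ)), F₁.FiniteIndex ∧
    ∃ (V : Type) (_ : Finite V) (G : SimpleGraph V) (C : Set V) (e : F₁ →* W (G.induce C)),
      Function.Injective e ∧ Van G k Set.univ C

/-- The main theorem. -/
theorem betti_grp (Γ : Type) [Group Γ] (n : ℕ) (H : LocV (n + 1) Γ) : VN831.l2Betti Γ (n + 1) = 0 := by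
  classical
  show VN831.luckDim Γ (VN831.homN Γ (n + 1)) = 0
  refine FinAux.luck_zero ?_
  have key : HP (canL : Γ →* NG Γ) n Nz := by
    refine hp_colim canL n Nz fun S => ?_
    have h0 : ∃ F : Subgroup Γ, (S : Set Γ) ⊆ F ∧ ∃ F₁ : Subgroup F, F₁.FiniteIndex ∧
        ∃ (V : Type) (_ : Finite V) (G : SimpleGraph V) (C : Set V) (e : F₁ →* W (G.induce C)),
        Function.Injective e ∧ Van G (n + 1) Set.univ C :=
      ⟨Subgroup.closure (S : Set Γ), Subgroup.subset_closure, H S⟩
    obtain ⟨F, hF, F₁, hF₁, V, hV, G, C, e, hei, hvan⟩ := h0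
    refine ⟨F, hF, ?_⟩
    let _ : Fintype V := Fintype.ofFinite V
    let _ : Fintype C := Fintype.ofFinite C
    let _ : LinearOrder V := LinearOrder.lift' (Fintype.equivFin V) (Fintype.equivFin V).injective
    obtain ⟨K', hK'⟩ : ∃ K' : Subgroup (W (G.induce C)), K' = e.range ⊓ (th (G.induce C)).ker := ⟨_, rfl⟩
    have hK'r : ∀ x : K', (x : W (G.induce C)) ∈ e.range := fun x => by
      have h8 : ∀ y, y ∈ K' → y ∈ e.range := fun y hy => by
        rw [hK'] at hy
        exact hy.1
      exact h8 _ x.2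
    have hK't : ∀ k ∈ K', ∀ n : ℕ, 0 < n → k ^ n = 1 → k = 1 := fun k hk n hn h => by
      rw [hK'] at hk
      exact tf C (G.induce C) k hk.2 n hn h
    obtain ⟨i, hi⟩ : ∃ i : K' →* F₁, ∀ x : K', e (i x) = x := by
      refine ⟨((MonoidHom.ofInjective hei).symm.toMonoidHom).comp
        (K'.subtype.codRestrict e.range hK'r), fun x => ?_⟩
      have h3 := MulEquiv.apply_symm_apply (MonoidHom.ofInjective hei) ⟨_, hK'r x⟩
      exact congrArg Subtype.val h3
    have hii : Function.Injective i := by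
      intro x x' h
      apply Subtype.ext
      rw [← hi, ← hi, h]
    have hfi : i.range.FiniteIndex := by
      have h3 : ((th (G.induce C)).comp e).ker ≤ i.range := by
        intro y hy
        have h4 : e y ∈ K' := by
          rw [hK']
          exact ⟨⟨y, rfl⟩, hy⟩
        refine ⟨⟨e y, h4⟩, ?_⟩
        apply hei
        rw [hi]
      have h5 : ((th (G.induce C)).comp e).ker.FiniteIndex := inferInstance
      exact Subgroup.finiteIndex_of_le h3
    obtain ⟨i', hi'⟩ : ∃ i' : K' →* F, i' = (F₁.subtype).comp i := ⟨_, rfl⟩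
    have hii' : Function.Injective i' := by
      rw [hi']
      exact (Subgroup.subtype_injective F₁).comp hii
    have hfi' : i'.range.FiniteIndex := by
      have h3 : i'.range = i.range.map F₁.subtype := by
        rw [hi', MonoidHom.range_comp]
      rw [h3]
      refine ⟨?_⟩
      rw [Subgroup.index_map_subtype]
      exact mul_ne_zero hfi.index_ne_zero hF₁.index_ne_zero
    have hHP := hp_vanC C K' hK't n hvan ((F.subtype).comp i') ((Subgroup.subtype_injective F).comp hii')
    obtain ⟨m, hm, hres⟩ := hp_transfer i' hii' ((canL : Γ →* NG Γ).comp F.subtype) hfi' n Nz hHP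
    intro x
    obtain ⟨s, ⟨s₀, hs₀, rfl⟩, hs⟩ := hres x
    refine ⟨s₀ * (m : NG Γ), Pool.Agent.RK.Nz.nz_mul _ _ hs₀ ?_, hs⟩
    intro y hy
    have h1 : IsUnit ((algebraMap ℂ (NG Γ)) (m : ℂ)) :=
      (isUnit_iff_ne_zero.2 (Nat.cast_ne_zero.2 hm.ne')).map (algebraMap ℂ (NG Γ))
    have h2 : (algebraMap ℂ (NG Γ)) (m : ℂ) = (m : NG Γ) := map_natCast _ m
    rw [h2] at h1
    exact h1.mul_left_eq_zero.1 hy
  exact key

/-- the property passes to subgroups, and to groups which contain a subgroup of finite index with this property -/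
theorem LocV.sub {k : ℕ} {Γ : Type} [Group Γ] (H : LocV k Γ) (K : Subgroup Γ) : LocV k K := by
  classical
  intro S
  obtain ⟨F₁, hF₁, V, hV, G, C, e, he, hvan⟩ := H (S.image (fun x : K => (x : Γ)))
  have h1 : ∀ y : Subgroup.closure (S : Set K), ((y : K) : Γ) ∈
      Subgroup.closure ((S.image (fun x : K => (x : Γ)) : Finset Γ) : Set Γ) := by
    have h2 : Subgroup.closure (S : Set K) ≤
        (Subgroup.closure ((S.image (fun x : K => (x : Γ)) : Finset Γ) : Set Γ)).comap K.subtype := by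
      rw [Subgroup.closure_le]
      intro s hs
      exact Subgroup.subset_closure (Finset.mem_coe.2 (Finset.mem_image_of_mem _ hs))
    intro y
    exact h2 y.2
  obtain ⟨φ, hφ⟩ : ∃ φ : Subgroup.closure (S : Set K) →*
      Subgroup.closure ((S.image (fun x : K => (x : Γ)) : Finset Γ) : Set Γ), ∀ y, (φ y : Γ) = ((y : K) : Γ) :=
    ⟨(K.subtype.comp (Subgroup.closure (S : Set K)).subtype).codRestrict _ h1, fun y => rfl⟩
  have hφi : Function.Injective φ := by
    intro x y hxy
    apply Subtype.ext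
    apply Subtype.ext
    rw [← hφ, ← hφ, hxy]
  have hfin : (F₁.comap φ).FiniteIndex := by
    refine ⟨?_⟩
    rw [Subgroup.index_comap]
    exact (inferInstance : (F₁.subgroupOf φ.range).FiniteIndex).index_ne_zero
  refine ⟨F₁.comap φ, hfin, V, hV, G, C, e.comp (φ.subgroupComap F₁), ?_, hvan⟩
  refine he.comp ?_
  intro x y hxy
  apply Subtype.ext
  apply hφi
  exact congrArg Subtype.val hxy

end Pool.Agent.H15.CC
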