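import Pool.Agent.H7.L.Helper970_V7_P_proj_res
import Pool.Agent.H7.L.Helper970_V7_P_homology_succ

/-!
# Resolutions in terms of elements, and their restriction to subgroups
-/

set_option autoImplicit false
set_option linter.unusedSectionVars false

noncomputable section

namespace Pool.Agent.H15.CC

open CategoryTheory V7N
open scoped TensorProduct

attribute [local instance] V7N.bcF_additive VN831.viaAdd VN831.viaMod

/-- a resolution of `ℤ` by projective modules over the group ring -/
structure ERes (K : Type) [Group K] where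
  X : ℕ → Type
  [ac : ∀ n, AddCommGroup (X n)]
  [md : ∀ n, Module (MonoidAlgebra ℤ K) (X n)]
  d : ∀ n, X (n + 1) →ₗ[MonoidAlgebra ℤ K] X n
  e : X 0 →+ ℤ
  inv : ∀ (g : K) x, e (MonoidAlgebra.single g (1 : ℤ) • x) = e x
  proj : ∀ n, Module.Projective (MonoidAlgebra ℤ K) (X n)
  surj : Function.Surjective e
  ex0 : ∀ v, e v = 0 ↔ ∃ w, d 0 w = v
  ex1 : ∀ n v, d n v = 0 ↔ ∃ w, d (n + 1) w = v

attribute [instance] ERes.ac ERes.md

theorem aug_act (K : Type) [Group K] (g : K) (z : ℤ) :
    MonoidAlgebra.single g (1 : ℤ) • (show trivG K from z) = (show trivG K from z) := by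
  show augG K (MonoidAlgebra.single g (1 : ℤ)) * z = z
  have h : augG K (MonoidAlgebra.single g (1 : ℤ)) = 1 := by
    show MonoidAlgebra.lift ℤ ℤ K (1 : K →* ℤ) (MonoidAlgebra.single g (1 : ℤ)) = 1
    rw [MonoidAlgebra.lift_single]
    simp
  rw [h, one_mul]

theorem exists_eres (K : Type) [Group K] : Nonempty (ERes K) := by
  let P := projectiveResolution (trivG K)
  have hs : Function.Surjective (P.π.f 0).hom :=
    (ModuleCat.epi_iff_surjective (P.π.f 0)).mp inferInstance
  refine ⟨⟨fun n => (P.complex.X n : Type), fun n => (P.complex.d (n + 1) n).hom,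
    { toFun := fun x => (show ℤ from (P.π.f 0).hom x)
      map_zero' := map_zero (P.π.f 0).hom
      map_add' := map_add (P.π.f 0).hom }, ?_, ?_, hs, ?_, ?_⟩⟩
  · intro g x
    show (show ℤ from (P.π.f 0).hom (MonoidAlgebra.single g (1 : ℤ) • x)) = (P.π.f 0).hom x
    rw [map_smul]
    exact aug_act K g ((P.π.f 0).hom x)
  · intro n
    exact (IsProjective.iff_projective (R := MonoidAlgebra ℤ K) (P.complex.X n)).2 (P.projective n)
  · intro v
    constructor
    · intro hv
      obtain ⟨w, hw⟩ := (ShortComplex.moduleCat_exact_iff _).mp P.exact₀ v hv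
      exact ⟨w, hw⟩
    · rintro ⟨w, rfl⟩
      have := P.complex_d_comp_π_f_zero
      exact congrArg (fun f => f.hom w) this
  · intro n v
    constructor
    · intro hv
      obtain ⟨w, hw⟩ := (ShortComplex.moduleCat_exact_iff _).mp (P.exact_succ n) v hv
      exact ⟨w, hw⟩
    · rintro ⟨w, rfl⟩
      have := P.complex.d_comp_d (n + 2) (n + 1) n
      exact congrArg (fun f => f.hom w) this

/-- restriction of modules -/
theorem proj_restrict {K' K : Type} [Group K'] [Group K] (i : K' →* K) (hi : Function.Injective i) (M : Type)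
    [AddCommGroup M] [Module (MonoidAlgebra ℤ K) M] (h : Module.Projective (MonoidAlgebra ℤ K) M) :
    @Module.Projective (MonoidAlgebra ℤ K') _ M _ (Module.compHom M (inc i)) := by
  classical
  let _ : Module (MonoidAlgebra ℤ K') M := Module.compHom M (inc i)
  obtain ⟨s, hs⟩ := h
  have := proj_via i hi
  have h1 : Module.Projective (MonoidAlgebra ℤ K') (M →₀ VV i) :=
    Module.Projective.of_equiv' (finsuppLEquivDirectSum (MonoidAlgebra ℤ K') (VV i) M).symm
  let s' : M →ₗ[MonoidAlgebra ℤ K'] (M →₀ VV i) :=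
    { toFun := fun m => (show M →₀ VV i from (s m : M →₀ MonoidAlgebra ℤ K))
      map_add' := fun a b => s.map_add a b
      map_smul' := fun c m => by
        show s (inc i c • m) = _
        rw [map_smul]
        ext1 x
        rfl }
  let π' : (M →₀ VV i) →ₗ[MonoidAlgebra ℤ K'] M :=
    { toFun := fun f => Finsupp.linearCombination (MonoidAlgebra ℤ K) id (show M →₀ MonoidAlgebra ℤ K from f)
      map_add' := fun a b => map_add (Finsupp.linearCombination (MonoidAlgebra ℤ K) (id : M → M)) _ _
      map_smul' := fun c f => by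
        show Finsupp.linearCombination (MonoidAlgebra ℤ K) (id : M → M) (show M →₀ MonoidAlgebra ℤ K from c • f) =
          inc i c • Finsupp.linearCombination (MonoidAlgebra ℤ K) (id : M → M) (show M →₀ MonoidAlgebra ℤ K from f)
        rw [← map_smul]
        congr 1 }
  exact Module.Projective.of_split s' π' (LinearMap.ext hs)

/-- restriction to a subgroup -/
def ERes.res {K : Type} [Group K] (E : ERes K) {K' : Type} [Group K'] (i : K' →* K) (hi : Function.Injective i) :
    ERes K' :=
  letI md' : ∀ n, Module (MonoidAlgebra ℤ K') (E.X n) := fun n => Module.compHom (E.X n) (inc i)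
  { X := E.X
    md := md'
    d := fun n =>
      { toFun := E.d n
        map_add' := (E.d n).map_add
        map_smul' := fun c x => (E.d n).map_smul (inc i c) x }
    e := E.e
    inv := fun g x => by
      show E.e (inc i (MonoidAlgebra.single g (1 : ℤ)) • x) = E.e x
      rw [inc_single]
      exact E.inv _ _
    proj := fun n => proj_restrict i hi (E.X n) (E.proj n)
    surj := E.surj
    ex0 := E.ex0
    ex1 := E.ex1 }

/-- a property of the elements of the homology with coefficients -/
def HP {K : Type} [Group K] {R : Type} [Ring R] (u : K →* R) (n : ℕ) (P : R → Prop) : Prop :=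
  ∀ m : ((bcF u).leftDerived (n + 1)).obj (trivG K), ∃ s, P s ∧ s • m = 0

/-- the same for a resolution -/
def Tors {K : Type} [Group K] (E : ERes K) {R : Type} [Ring R] (u : K →* R) (n : ℕ) (P : R → Prop) : Prop :=
  ∀ z : BCG u (E.X (n + 1)), bcM u (E.d n) z = 0 → ∃ s, P s ∧ ∃ y, bcM u (E.d (n + 1)) y = s • z

variable {K : Type} [Group K] (E : ERes K)

theorem ERes.sq (n : ℕ) : ModuleCat.ofHom (E.d (n + 1)) ≫ ModuleCat.ofHom (E.d n) = 0 := by
  rw [← ModuleCat.ofHom_comp]
  have h : (E.d n).comp (E.d (n + 1)) = 0 := by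
    apply LinearMap.ext
    intro c
    exact (E.ex1 n _).2 ⟨c, rfl⟩
  rw [h]
  rfl

/-- the complex -/
def ERes.cx : ChainComplex (ModuleCat.{0} (MonoidAlgebra ℤ K)) ℕ :=
  ChainComplex.of (fun n => ModuleCat.of (MonoidAlgebra ℤ K) (E.X n)) (fun n => ModuleCat.ofHom (E.d n)) E.sq

theorem ERes.cx_d (n : ℕ) : E.cx.d (n + 1) n = ModuleCat.ofHom (E.d n) :=
  ChainComplex.of_d (fun n => ModuleCat.of (MonoidAlgebra ℤ K) (E.X n)) (fun n => ModuleCat.ofHom (E.d n)) n

/-- additive maps to the trivial module -/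
def ERes.eL : E.X 0 →ₗ[MonoidAlgebra ℤ K] trivG K where
  toFun x := (show ℤ from E.e x)
  map_add' := E.e.map_add
  map_smul' c m := by
    show (show trivG K from E.e (c • m)) = c • (show trivG K from E.e m)
    induction c using MonoidAlgebra.induction_linear with
    | zero =>
      rw [zero_smul, zero_smul]
      exact map_zero E.e
    | add x y hx hy =>
      rw [add_smul, add_smul, ← hx, ← hy]
      exact map_add E.e _ _
    | single g n =>
      have e : (MonoidAlgebra.single g n : MonoidAlgebra ℤ K) = n • MonoidAlgebra.single g (1 : ℤ) := by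
        rw [MonoidAlgebra.smul_single, smul_eq_mul, mul_one]
      rw [e, smul_assoc, smul_assoc, aug_act K g]
      have h1 : E.e (n • MonoidAlgebra.single g (1 : ℤ) • m) = n • E.e m := by
        rw [map_zsmul, E.inv]
      exact h1

theorem ERes.exists_res : ∃ P : ProjectiveResolution (trivG K), P.complex = E.cx := by
  refine gen_res (fun n => ModuleCat.of (MonoidAlgebra ℤ K) (E.X n)) (fun n => ModuleCat.ofHom (E.d n)) E.sq
    (trivG K) (ModuleCat.ofHom (X := E.X 0) (Y := trivG K) E.eL) ?_ ?_ ?_ ?_ ?_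
  · intro n
    exact (IsProjective.iff_projective (R := MonoidAlgebra ℤ K) (E.X n)).1 (E.proj n)
  · apply ModuleCat.hom_ext
    apply LinearMap.ext
    intro c
    exact (E.ex0 _).2 ⟨c, rfl⟩
  · intro z
    obtain ⟨x, hx⟩ := E.surj z
    exact ⟨x, hx⟩
  · intro v hv
    obtain ⟨w, hw⟩ := (E.ex0 v).1 hv
    exact ⟨w, hw⟩
  · intro n v hv
    obtain ⟨w, hw⟩ := (E.ex1 n v).1 hv
    exact ⟨w, hw⟩

theorem hp_iff {R : Type} [Ring R] (u : K →* R) (n : ℕ) (P : R → Prop) : HP u n P ↔ Tors E u n P := by
  obtain ⟨Q, hQ⟩ := E.exists_res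
  have h1 : Nonempty (((bcF u).leftDerived (n + 1)).obj (trivG K) ≅
      (((bcF u).mapHomologicalComplex (ComplexShape.down ℕ)).obj Q.complex).homology (n + 1)) :=
    ⟨Q.isoLeftDerivedObj (bcF u) (n + 1)⟩
  rw [hQ] at h1
  obtain ⟨i1⟩ := h1
  have l1 := i1.toLinearEquiv
  obtain ⟨l2⟩ := homology_succ (((bcF u).mapHomologicalComplex (ComplexShape.down ℕ)).obj E.cx) n
  have d1 : (((bcF u).mapHomologicalComplex (ComplexShape.down ℕ)).obj E.cx).d (n + 1 + 1) (n + 1) =
      ModuleCat.ofHom (bcM u (E.d (n + 1))) := by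
    change (bcF u).map (E.cx.d (n + 1 + 1) (n + 1)) = _
    rw [ERes.cx_d]
    rfl
  have d0 : (((bcF u).mapHomologicalComplex (ComplexShape.down ℕ)).obj E.cx).d (n + 1) n =
      ModuleCat.ofHom (bcM u (E.d n)) := by
    change (bcF u).map (E.cx.d (n + 1) n) = _
    rw [ERes.cx_d]
    rfl
  rw [d1, d0] at l2
  have l3 : ((bcF u).leftDerived (n + 1)).obj (trivG K) ≃ₗ[R] (LinearMap.ker (bcM u (E.d n))) ⧸
      (LinearMap.range (bcM u (E.d (n + 1)))).submoduleOf (LinearMap.ker (bcM u (E.d n))) := l1.trans l2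
  constructor
  · intro H z hz
    obtain ⟨s, hs, h2⟩ := H (l3.symm (Submodule.Quotient.mk ⟨z, hz⟩))
    rw [← map_smul, map_eq_zero_iff _ l3.symm.injective, ← Submodule.Quotient.mk_smul,
      Submodule.Quotient.mk_eq_zero] at h2
    obtain ⟨y, hy⟩ := h2
    exact ⟨s, hs, y, hy⟩
  · intro H m
    obtain ⟨⟨z, hz⟩, hq⟩ := Submodule.Quotient.mk_surjective _ (l3 m)
    obtain ⟨s, hs, y, hy⟩ := H z hz
    refine ⟨s, hs, ?_⟩
    apply l3.injective
    rw [map_smul, map_zero, ← hq, ← Submodule.Quotient.mk_smul, Submodule.Quotient.mk_eq_zero]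
    exact ⟨y, hy⟩

end Pool.Agent.H15.CC
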