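import Pool.Agent.H15.CCF.F1
import Pool.Agent.H7.L.N496_CV_P_SPEC
import Pool.Agent.H7.L.N496_CV_P_TOP

/-!
# The top degree, for the von Neumann algebra of a group which contains the acting group

The proof is that of `top` (project CV), with the coefficient at an arbitrary element.
-/

set_option autoImplicit false

noncomputable section

namespace Pool.Agent.H15.CC

open Pool.Agent.W907.SG Pool.Agent.W461.SGN Pool.Agent.Helper655.VN Pool.Agent.RK Pool.Agent.N496.CV

/-- the coefficient maps: `u` comes from an embedding in a group and the localisation of its von Neumann algebra -/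
def Adm {K : Type} [Group K] {U : Type} [Ring U] (u : K →* U) : Prop :=
  ∃ (Kb : Type) (_ : Group Kb) (j : K →* Kb) (ι : NG Kb →+* U), Function.Injective j ∧ Loc ι ∧
    ∀ h, u h = ι (canL (j h))

theorem topcf_mul {Kb : Type} [Group Kb] (b k : Kb) (x : NG Kb) : topcf b (x * canL k⁻¹) = topcf (b * k) x := by
  rw [← topcf_canL b, mul_assoc, ← map_mul, ← mul_inv_rev, topcf_canL]

/-- the summability over a coset of a special subgroup -/
theorem top_sum' {V : Type} {G : SimpleGraph V} (K : Subgroup (W G)) {Kb : Type} [Group Kb] (j : K →* Kb)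
    (hj : Function.Injective j) (b : Kb) (S : Finset (W G)) (E : Subgroup (W G × ℤˣ)) (g : W G → NG Kb) (hS : ∀ w, g w ≠ 0 → ∃ h : K, ∃ x ∈ S, ∃ p ∈ E, w = h * x * p.1)
    (hE : ∀ p ∈ E, ∀ w, g (w * p.1) = ((p.2 : ℤˣ) : ℤ) • g w) (hK : ∀ (h : K) w, g (h * w) = g w * canL (j h)⁻¹)
    {W' : Type} (f : W' → W G) (hf : ∀ w w' : W', ∀ p ∈ E, ∀ p' ∈ E, ∀ z : W G, f w = z * p.1 → f w' = z * p'.1 →
      w = w') : Summable fun w' => ‖topcf b (g (f w'))‖ ^ 2 := by
  classical
  have hval : ∀ (h : K) (x : W G) (p : W G × ℤˣ), p ∈ E → ‖topcf b (g (h * x * p.1))‖ = ‖topcf (b * j h) (g x)‖ := by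
    intro h x p hp
    rw [hE p hp, map_zsmul, hK, topcf_mul]
    rcases Int.units_eq_one_or p.2 with h1 | h1 <;> rw [h1] <;> simp
  have hch : ∀ z : {w' : W' // g (f w') ≠ 0}, ∃ y : {x : W G // x ∈ S} × K, ∃ p ∈ E, f z.1 = y.2 * y.1.1 * p.1 := by
    rintro ⟨w', hw'⟩
    obtain ⟨h, x, hx, p, hp, e⟩ := hS _ hw'
    exact ⟨(⟨x, hx⟩, h), p, hp, e⟩
  choose φ p hp hφ using hch
  have hinj : Function.Injective φ := by
    intro z z' hzz
    have h1 := hφ z
    have h2 := hφ z'
    rw [← hzz] at h2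
    exact Subtype.ext (hf _ _ _ (hp z) _ (hp z') _ h1 h2)
  have hF : Summable fun y : {x : W G // x ∈ S} × K => ‖topcf (b * j y.2) (g y.1.1)‖ ^ 2 := by
    rw [summable_prod_of_nonneg (fun _ => by positivity)]
    exact ⟨fun x => (topcf_summable (g x.1)).comp_injective (i := fun h : K => b * j h)
      (fun h h' e => hj (mul_left_cancel e)), Summable.of_finite⟩
  have h3 := hF.comp_injective hinj
  have h4 : Summable ((fun w' => ‖topcf b (g (f w'))‖ ^ 2) ∘ (Subtype.val : {w' : W' // g (f w') ≠ 0} → W')) := by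
    refine h3.congr fun z => ?_
    simp only [Function.comp_apply]
    rw [hφ z, hval _ _ _ (hp z)]
  rwa [Function.Injective.summable_iff Subtype.val_injective] at h4
  intro w' hw'
  have h5 : g (f w') = 0 := by
    by_contra h6
    exact hw' ⟨⟨w', h6⟩, rfl⟩
  rw [h5, map_zero]
  simp

theorem top' (V : Type) [Fintype V] [LinearOrder V] (G : SimpleGraph V) (K : Subgroup (W G)) (U : Type)
    [Ring U] (u : K →* U) (L C : Set V) (Y : Set (W G)) (E : Subgroup (W G × ℤˣ)) (i : ℕ)
    (hu : Adm u) (hgood : Good K L Y E) (hCL : C ⊆ L)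
    (hvan : ∀ [Fintype C] [LinearOrder C], L2Van (G.induce C) i)
    (hd : ∀ T : Finset V, G.IsClique (T : Set V) → (T : Set V) ⊆ C → T.card ≤ i)
    (c : Finset V → W G → U) (hc : IsCh G C (InM K u Y E) i c) (hbd : bdf G c = 0) : c = 0 := by
  obtain ⟨Kb, _, j, ι, hj, hL, hu⟩ := hu
  have hspec := PSPEC.spec
  classical
  obtain ⟨hspec1, hspec2, -⟩ := hspec V G
  obtain ⟨f, hfinj, hf⟩ := hspec2 C
  obtain ⟨Q, hQ, hQL⟩ := hgood.comm
  -- the finite supports
  choose S hS using fun T => (hc.mem T).fin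
  -- the common denominator
  obtain ⟨s, hs, hsx⟩ := top_denom hL
    (Finset.univ.biUnion fun T : Finset V => (S T).image fun x => c T x)
  have hex : ∀ (T : Finset V) (w : W G), ∃ x : NG Kb, ι x = ι s * c T w := by
    intro T w
    by_cases hw : c T w = 0
    · exact ⟨0, by rw [hw, mul_zero, map_zero]⟩
    · obtain ⟨h, x, hx, p, hp, e⟩ := hS T w hw
      obtain ⟨y, hy⟩ := hsx (c T x) (Finset.mem_biUnion.2 ⟨T, Finset.mem_univ _, Finset.mem_image.2 ⟨x, hx, rfl⟩⟩)
      refine ⟨((p.2 : ℤˣ) : ℤ) • (y * canL (j h⁻¹)), ?_⟩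
      rw [e, (hc.mem T).eqE p hp, (hc.mem T).eqK, map_zsmul, map_mul, ← hy, ← hu, mul_smul_comm, mul_assoc]
  choose g hg using hex
  have hinj := hL.inj
  have gE : ∀ T, ∀ p ∈ E, ∀ w, g T (w * p.1) = ((p.2 : ℤˣ) : ℤ) • g T w := by
    intro T p hp w
    apply hinj
    rw [map_zsmul, hg, hg, (hc.mem T).eqE p hp, mul_smul_comm]
  have gK : ∀ T, ∀ (h : K) w, g T (h * w) = g T w * canL (j h)⁻¹ := by
    intro T h w
    apply hinj
    rw [map_mul, hg, hg, (hc.mem T).eqK, hu, map_inv, mul_assoc]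
  have gS : ∀ T, ∀ w, g T w ≠ 0 → ∃ h : K, ∃ x ∈ S T, ∃ p ∈ E, w = h * x * p.1 := by
    intro T w hw
    refine hS T w fun h0 => hw ?_
    apply hinj
    rw [hg, h0, mul_zero, map_zero]
  have gs : ∀ T : Finset V, ¬ (G.IsClique (T : Set V) ∧ (T : Set V) ⊆ C ∧ T.card = i) → ∀ w, g T w = 0 := by
    intro T hT w
    apply hinj
    rw [hg, hc.supp T hT, Pi.zero_apply, mul_zero, map_zero]
  have ga : ∀ T : Finset V, ∀ t ∈ T, ∀ w, g T (w * (cox G).simple t) = - g T w := by
    intro T t ht w
    apply hinj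
    rw [map_neg, hg, hg, hc.anti T t ht, mul_neg]
  have gc : ∀ (T : Finset V) (w : W G), ∑ v ∈ Tᶜ, sg v T • g (insert v T) w = 0 := by
    intro T w
    apply hinj
    rw [map_sum, map_zero]
    have h1 : ∑ v ∈ Tᶜ, ι (sg v T • g (insert v T) w) = ι s * bdf G c T w := by
      unfold bdf
      rw [Finset.mul_sum]
      refine Finset.sum_congr rfl fun v _ => ?_
      rw [map_zsmul, hg, mul_smul_comm]
    rw [h1, hbd]
    simp
  have hsum : ∀ (b : Kb) (w0 : W G) (T : Finset V), Summable fun w' => ‖topcf b (g T (w0 * f w'))‖ ^ 2 := by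
    intro b w0 T
    refine top_sum' K j hj b (S T) E (g T) (gS T) (gE T) (gK T) (fun w' => w0 * f w') ?_
    intro w w' p hp p' hp' z h1 h2
    have h3 : f (w⁻¹ * w') = p.1⁻¹ * p'.1 := by
      have e1 : f w = w0⁻¹ * (z * p.1) := by rw [← h1]; group
      have e2 : f w' = w0⁻¹ * (z * p'.1) := by rw [← h2]; group
      rw [map_mul, map_inv, e1, e2]
      group
    have h4 : f (w⁻¹ * w') ∈ Subgroup.closure ((cox G).simple '' C) := by
      have h5 : ∀ y : W (G.induce C), f y ∈ Subgroup.closure ((cox G).simple '' C) := by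
        intro y
        have h6 : (⊤ : Subgroup (W (G.induce C))) = Subgroup.closure (Set.range (cox (G.induce C)).simple) :=
          ((cox (G.induce C)).toCoxeterSystem.subgroup_closure_range_simple).symm
        have h7 : y ∈ Subgroup.closure (Set.range (cox (G.induce C)).simple) := by
          rw [← h6]; trivial
        refine Subgroup.closure_induction (p := fun y _ => f y ∈ Subgroup.closure ((cox G).simple '' C))
          ?_ ?_ ?_ ?_ h7
        · rintro _ ⟨v, rfl⟩
          rw [hf]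
          exact Subgroup.subset_closure ⟨v.1, v.2, rfl⟩
        · rw [map_one]; exact one_mem _
        · intro a b _ _ ha hb
          rw [map_mul]; exact mul_mem ha hb
        · intro a _ ha
          rw [map_inv]; exact inv_mem ha
      exact h5 _
    have h8 : f (w⁻¹ * w') ∈ Subgroup.closure ((cox G).simple '' Q) := by
      rw [h3]
      exact mul_mem (inv_mem (hQ p hp)) (hQ p' hp')
    have hdis : Disjoint Q C := by
      rw [Set.disjoint_left]
      intro q hq hqC
      exact G.loopless.irrefl q (hQL q hq q (hCL hqC))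
    have h9 := hspec1 Q C hdis _ h8 h4
    have h10 : w⁻¹ * w' = 1 := hfinj (by rw [h9, map_one])
    exact (inv_mul_eq_one.1 h10)
  -- the coefficients vanish
  have hfin : Fintype C := Fintype.ofFinite _
  have hγ : ∀ b T w, topcf b (g T w) = 0 := by
    intro b T w
    have h0 : ∀ ℓ : ℂ →+ ℝ, (∀ z, |ℓ z| ≤ ‖z‖) → ℓ (topcf b (g T w)) = 0 := by
      intro ℓ hℓ
      refine top_harm (i := i) (fun T w => topcf b (g T w)) ?_ ?_ ?_ hd f hf w (hsum b w) hvan ℓ hℓ T
      · intro T hT w
        rw [gs T hT, map_zero]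
      · intro T t ht w
        rw [ga T t ht, map_neg]
      · intro T w
        have h1 := congrArg (topcf b) (gc T w)
        rw [map_sum, map_zero] at h1
        rw [← h1]
        refine Finset.sum_congr rfl fun v _ => ?_
        rw [map_zsmul]
    refine Complex.ext ?_ ?_
    · exact h0 Complex.reAddGroupHom (fun z => Complex.abs_re_le_norm z)
    · exact h0 Complex.imAddGroupHom (fun z => Complex.abs_im_le_norm z)
  funext T w
  have h1 : g T w = 0 := by
    apply topcf_ext
    intro h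
    exact hγ h T _
  have h2 := hg T w
  rw [h1, map_zero] at h2
  exact ((hL.unit s hs).mul_right_eq_zero.1 h2.symm)


end Pool.Agent.H15.CC
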